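import Mathlib

set_option autoImplicit false

/-! # The function of Rankin (helper670) -/

namespace Pool.Agent.Y670.RP

open Filter

/-- Rankin's function of `y = log X` -/
noncomputable def RY (y : ℝ) : ℝ :=
  y * Real.log y * Real.log (Real.log (Real.log y)) / (Real.log (Real.log y)) ^ 2

theorem ev_logs (M : ℝ) : ∃ y₀ : ℝ, ∀ y : ℝ, y₀ ≤ y → M ≤ y ∧ M ≤ Real.log y ∧
    M ≤ Real.log (Real.log y) ∧ M ≤ Real.log (Real.log (Real.log y)) ∧
    M * (Real.log (Real.log y)) ^ 2 ≤ Real.log y := by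
  have h1 := Real.tendsto_log_atTop
  have h2 := h1.comp h1
  have h3 := h1.comp h2
  have h0 : ∀ᶠ x : ℝ in atTop, ‖Real.log x ^ 2‖ ≤ (1 / (|M| + 1) : ℝ) * ‖id x‖ :=
    (Real.isLittleO_pow_log_id_atTop (n := 2)).bound (by positivity)
  have h4 : ∀ᶠ y : ℝ in atTop, M * (Real.log (Real.log y)) ^ 2 ≤ Real.log y := by
    filter_upwards [h1.eventually h0, h1.eventually_ge_atTop 0] with y hy hy0
    rw [Real.norm_of_nonneg (by positivity), id, Real.norm_of_nonneg hy0] at hy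
    have h5 : (|M| + 1) * (Real.log (Real.log y)) ^ 2 ≤ Real.log y := by
      calc (|M| + 1) * (Real.log (Real.log y)) ^ 2 ≤ (|M| + 1) * (1 / (|M| + 1) * Real.log y) :=
            mul_le_mul_of_nonneg_left hy (by positivity)
        _ = Real.log y := by field_simp
    have h6 : M * (Real.log (Real.log y)) ^ 2 ≤ (|M| + 1) * (Real.log (Real.log y)) ^ 2 := by
      apply mul_le_mul_of_nonneg_right _ (sq_nonneg _)
      linarith [le_abs_self M]
    linarith
  obtain ⟨y₀, hy₀⟩ := Filter.eventually_atTop.1 ((eventually_ge_atTop M).and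
    ((h1.eventually_ge_atTop M).and ((h2.eventually_ge_atTop M).and
      ((h3.eventually_ge_atTop M).and h4))))
  exact ⟨y₀, fun y hy => hy₀ y hy⟩

theorem ana1 (C c₃ M : ℝ) (hC : 0 < C) (hc₃ : 0 < c₃) : ∃ c₂ : ℝ, 0 < c₂ ∧ ∃ y₀ : ℝ,
    ∀ y : ℝ, y₀ ≤ y → ∀ T : ℕ, T = ⌊c₂ * RY y⌋₊ → M ≤ y ∧ 1 ≤ Real.log y ∧
      M ≤ Real.log (Real.log y) ∧ M ≤ Real.log (Real.log (Real.log y)) ∧
      y ≤ T ∧ (T : ℝ) ≤ c₂ * RY y ∧ (T : ℝ) ≤ y * Real.log y ∧
      C * T * (Real.log (Real.log y)) ^ 2 /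
        ((Real.log y) ^ 2 * Real.log (Real.log (Real.log y))) ≤ c₃ * (y / Real.log y) := by
  set c₂ : ℝ := min 1 (c₃ / C) with hc₂
  have hc₂0 : 0 < c₂ := lt_min one_pos (by positivity)
  obtain ⟨y₀, hy₀⟩ := ev_logs (max (max M 1) (2 / c₂))
  refine ⟨c₂, hc₂0, y₀, fun y hy T hT => ?_⟩
  obtain ⟨h1, h2, h3, h4, h5⟩ := hy₀ y hy
  set M' := max (max M 1) (2 / c₂) with hM'
  have hM1 : M ≤ M' := (le_max_left _ _).trans (le_max_left _ _)
  have hM2 : 1 ≤ M' := (le_max_right _ _).trans (le_max_left _ _)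
  have hM3 : 2 / c₂ ≤ M' := le_max_right _ _
  set l1 := Real.log y with hl1
  set l2 := Real.log l1 with hl2
  set l3 := Real.log l2 with hl3
  have p0 : 1 ≤ y := by linarith
  have p1 : 1 ≤ l1 := by linarith
  have p2 : 1 ≤ l2 := by linarith
  have p3 : 1 ≤ l3 := by linarith
  have hRY : RY y = y * l1 * l3 / l2 ^ 2 := rfl
  have hRY0 : 0 ≤ RY y := by rw [hRY]; positivity
  have hl32 : l3 ≤ l2 := (Real.log_le_sub_one_of_pos (by linarith)).trans (by linarith)
  have hTle : (T : ℝ) ≤ c₂ * RY y := by rw [hT]; exact Nat.floor_le (by positivity)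
  have hl2sq : l2 ≤ l2 ^ 2 := le_self_pow₀ p2 (by norm_num)
  have hl2pos : 0 < l2 ^ 2 := by positivity
  refine ⟨by linarith, p1, by linarith, by linarith, ?_, hTle, ?_, ?_⟩
  · -- y ≤ T
    have h6 : 2 * y ≤ c₂ * RY y := by
      rw [hRY, ← mul_div_assoc, le_div_iff₀ hl2pos]
      have h7 : 2 / c₂ * l2 ^ 2 ≤ l1 :=
        (mul_le_mul_of_nonneg_right hM3 hl2pos.le).trans h5
      have h8 : 2 * l2 ^ 2 ≤ c₂ * l1 := by
        rw [div_mul_eq_mul_div, div_le_iff₀ hc₂0] at h7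
        linarith
      calc 2 * y * l2 ^ 2 = y * (2 * l2 ^ 2) := by ring
        _ ≤ y * (c₂ * l1) := mul_le_mul_of_nonneg_left h8 (by linarith)
        _ = c₂ * (y * l1) * 1 := by ring
        _ ≤ c₂ * (y * l1) * l3 := by
            apply mul_le_mul_of_nonneg_left p3
            positivity
        _ = c₂ * (y * l1 * l3) := by ring
    have h7 := Nat.lt_floor_add_one (c₂ * RY y)
    rw [← hT] at h7
    linarith
  · refine hTle.trans ?_
    have h6 : c₂ * RY y ≤ 1 * RY y := mul_le_mul_of_nonneg_right (min_le_left _ _) hRY0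
    have h7 : RY y ≤ y * l1 := by
      rw [hRY, div_le_iff₀ hl2pos]
      apply mul_le_mul_of_nonneg_left _ (by positivity)
      linarith
    linarith
  · have h6 : C * T ≤ c₃ * RY y := by
      calc C * T ≤ C * (c₂ * RY y) := mul_le_mul_of_nonneg_left hTle hC.le
        _ ≤ C * ((c₃ / C) * RY y) := by
            apply mul_le_mul_of_nonneg_left _ hC.le
            exact mul_le_mul_of_nonneg_right (min_le_right _ _) hRY0
        _ = c₃ * RY y := by field_simp
    have h7 : c₃ * (y / l1) = c₃ * RY y * l2 ^ 2 / (l1 ^ 2 * l3) := by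
      rw [hRY]
      field_simp
    rw [h7]
    apply div_le_div_of_nonneg_right _ (by positivity)
    exact mul_le_mul_of_nonneg_right h6 hl2pos.le

theorem ana2' (K : ℝ) (hK : 1 ≤ K) : ∃ L₀ : ℝ, ∀ L : ℝ, L₀ ≤ L → 0 ≤ RY L ∧
    ∀ L' : ℝ, L / K ≤ L' → L' ≤ L → RY L / (4 * K) ≤ RY L' := by
  obtain ⟨y₀, hy₀⟩ := ev_logs 4
  obtain ⟨y₁, hy₁⟩ := ev_logs (K ^ 2)
  refine ⟨max y₀ y₁, fun L hL => ?_⟩
  obtain ⟨-, h1, h2, h3, -⟩ := hy₀ L ((le_max_left _ _).trans hL)
  obtain ⟨h4, -⟩ := hy₁ L ((le_max_right _ _).trans hL)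
  have hK0 : 0 < K := by linarith
  have hL1 : 1 ≤ L := by
    have : 1 ≤ K ^ 2 := one_le_pow₀ hK
    linarith
  set l1 := Real.log L with hl1
  set l2 := Real.log l1 with hl2
  set l3 := Real.log l2 with hl3
  have hlogK : Real.log K ≤ l1 / 2 := by
    have h5 := Real.log_le_log (by positivity) h4
    rw [Real.log_pow] at h5
    push_cast at h5
    linarith
  have hR : RY L = L * l1 * l3 / l2 ^ 2 := rfl
  constructor
  · rw [hR]
    have : 0 ≤ l3 := by linarith
    positivity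
  intro L' hL'1 hL'2
  have e1 : Real.log (L / K) = l1 - Real.log K := Real.log_div (by linarith) hK0.ne'
  have hlogK0 : 0 ≤ Real.log K := Real.log_nonneg hK
  have q0 : 0 < L := by linarith
  have q4 : 0 < L / K := div_pos q0 hK0
  have g0 : Real.log (L / K) ≤ Real.log L' := Real.log_le_log q4 hL'1
  have g1 : l1 / 2 ≤ Real.log L' := by linarith
  have g1' : Real.log L' ≤ l1 := Real.log_le_log (by linarith) hL'2
  have hlog2 : Real.log 2 ≤ 1 := by
    have := Real.log_two_lt_d9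
    linarith
  have g2 : l2 / 2 ≤ Real.log (Real.log L') := by
    have h5 := Real.log_le_log (by linarith : 0 < l1 / 2) g1
    rw [Real.log_div (by linarith) (by norm_num)] at h5
    linarith
  have g2' : Real.log (Real.log L') ≤ l2 := Real.log_le_log (by linarith) g1'
  have g3 : l3 / 2 ≤ Real.log (Real.log (Real.log L')) := by
    have h5 := Real.log_le_log (by linarith : 0 < l2 / 2) g2
    rw [Real.log_div (by linarith) (by norm_num)] at h5
    linarith
  have h5 : RY L' = L' * Real.log L' * Real.log (Real.log (Real.log L')) /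
      (Real.log (Real.log L')) ^ 2 := rfl
  rw [h5, hR]
  have h6 : L * l1 * l3 / l2 ^ 2 / (4 * K) = (L / K) * (l1 / 2) * (l3 / 2) / l2 ^ 2 := by
    field_simp
    ring
  rw [h6]
  have q1 : 0 < Real.log L' := by linarith
  have q2 : 0 < Real.log (Real.log L') := by linarith
  have q3 : 0 < Real.log (Real.log (Real.log L')) := by linarith
  have q5 : 0 < L' := by linarith
  apply div_le_div₀
  · exact mul_nonneg (mul_nonneg q5.le q1.le) q3.le
  · apply mul_le_mul _ g3 (by linarith) (mul_nonneg q5.le q1.le)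
    exact mul_le_mul hL'1 g1 (by linarith) q5.le
  · exact pow_pos q2 2
  · apply pow_le_pow_left₀ q2.le g2'

theorem ana2 (K : ℝ) (hK : 1 ≤ K) : ∃ L₀ : ℝ, ∀ L : ℝ, L₀ ≤ L →
    RY L / (4 * K) ≤ RY (L / K) ∧ 0 ≤ RY L := by
  obtain ⟨L₀, h⟩ := ana2' K hK
  refine ⟨max L₀ 0, fun L hL => ?_⟩
  obtain ⟨h1, h2⟩ := h L ((le_max_left _ _).trans hL)
  have hL0 : 0 ≤ L := (le_max_right _ _).trans hL
  exact ⟨h2 _ le_rfl (div_le_self hL0 hK), h1⟩

end Pool.Agent.Y670.RP
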