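import Pool.Agent.Y670.RP.Int

set_option autoImplicit false

/-! # Values at primes (helper670) -/

namespace Pool.Agent.Y670.RP

open Polynomial Finset Filter

open scoped Classical

theorem monic_linear {f : ℤ[X]} (h1 : f.natDegree = 1) (h2 : f.leadingCoeff = 1) :
    ∃ b : ℤ, f = Polynomial.X + C b := by
  refine ⟨f.coeff 0, ?_⟩
  have h3 := f.eq_X_add_C_of_natDegree_le_one h1.le
  have h4 : f.coeff 1 = 1 := by rw [← h2, ← coeff_natDegree, h1]
  rw [h4, C_1, one_mul] at h3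
  exact h3

theorem primesF (hM : S_MPL) (hL : S_LINX) (F : Finset ℤ[X])
    (hF : ∀ f ∈ F, 1 ≤ f.natDegree ∧ ¬ (f.natDegree = 1 ∧ f.leadingCoeff = 1)) :
    ∃ c : ℝ, 0 < c ∧ ∃ X₀ : ℝ, ∀ X : ℝ, X₀ ≤ X → 0 ≤ RY (Real.log X) ∧
      X ^ c ≤ (((Icc 1 ⌊X⌋₊).filter (fun p : ℕ => p.Prime ∧ ∀ f ∈ F, ∀ q : ℕ, q.Prime →
        c * RY (Real.log X) < |(q : ℝ) - ((f.eval (p : ℤ) : ℤ) : ℝ)|)).card : ℝ) := by
  obtain ⟨c, B, y₀, hc, hB, hcov⟩ := cover hM F (fun f hf => (hF f hf).1)
  obtain ⟨K, cL, hK, hcL, z₀, hlin⟩ := hL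
  obtain ⟨N₀, hgr⟩ := growthF F (fun f hf => (hF f hf).1)
  have hK1 : (1 : ℝ) ≤ K := by exact_mod_cast hK
  have hK0 : (0 : ℝ) < K := by linarith
  obtain ⟨L₀, hana⟩ := ana2 (100 * K) (by linarith)
  obtain ⟨y₁, hpe⟩ := pow_exp B
  set y₂ : ℝ := max (max y₀ y₁) (max (max 10 (1 / cL)) (max (|N₀| + 1) (z₀ + 1))) with hy₂
  set c' : ℝ := min (c / (400 * K)) (1 / (100 * K)) with hc'
  have hc'0 : 0 < c' := lt_min (by positivity) (by positivity)
  refine ⟨c', hc'0, max (Real.exp L₀) (Real.exp (100 * K * y₂)), fun X hX => ?_⟩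
  have hX0 : 0 < X := (Real.exp_pos _).trans_le ((le_max_left _ _).trans hX)
  have hL0 : L₀ ≤ Real.log X := by
    rw [Real.le_log_iff_exp_le hX0]
    exact (le_max_left _ _).trans hX
  have hL1 : 100 * K * y₂ ≤ Real.log X := by
    rw [Real.le_log_iff_exp_le hX0]
    exact (le_max_right _ _).trans hX
  obtain ⟨e1, e2⟩ := hana _ hL0
  refine ⟨e2, ?_⟩
  set y : ℝ := Real.log X / (100 * K) with hy
  have hyy : y₂ ≤ y := by
    rw [hy, le_div_iff₀ (by positivity)]
    linarith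
  have hlogX : Real.log X = 100 * y * K := by
    rw [hy]
    field_simp
  have hXexp : X = Real.exp (100 * y * K) := by
    rw [← hlogX, Real.exp_log hX0]
  have hy0 : y₀ ≤ y := (le_max_left _ _).trans ((le_max_left _ _).trans hyy)
  have hy1 : y₁ ≤ y := (le_max_right _ _).trans ((le_max_left _ _).trans hyy)
  have hyr := (le_max_right _ _).trans hyy
  have hy10 : 10 ≤ y := (le_max_left _ _).trans ((le_max_left _ _).trans hyr)
  have hycL : 1 / cL ≤ y := (le_max_right _ _).trans ((le_max_left _ _).trans hyr)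
  have hyN : |N₀| + 1 ≤ y := (le_max_left _ _).trans ((le_max_right _ _).trans hyr)
  have hyz : (z₀ : ℝ) + 1 ≤ y := (le_max_right _ _).trans ((le_max_right _ _).trans hyr)
  obtain ⟨p1, p2⟩ := hpe y hy1
  obtain ⟨r1, r2, r3⟩ := hcov y hy0
  set z : ℕ := ⌊Real.exp (100 * y)⌋₊ with hz
  have hzle : (z : ℝ) ≤ Real.exp (100 * y) := Nat.floor_le (Real.exp_pos _).le
  have hzlt : Real.exp (100 * y) < z + 1 := Nat.lt_floor_add_one _
  have hbig : 100 * y + 1 ≤ Real.exp (100 * y) := Real.add_one_le_exp _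
  have hz0 : z₀ ≤ z := by
    have : (z₀ : ℝ) ≤ z := by linarith
    exact_mod_cast this
  obtain ⟨r, hr, hprimes⟩ := hlin z hz0
  obtain ⟨Q, b, hQsf, hrQ, hQ, hbQ, hQp, hhit⟩ := r3 r hr
  have hQ0 : 0 < Q := Nat.pos_of_ne_zero hQsf.ne_zero
  have hQ0' : (0 : ℝ) < Q := by exact_mod_cast hQ0
  have hexp48 : Real.exp (48 * y) + 1 ≤ Real.exp (100 * y) := by
    have h3 : (2 : ℝ) ≤ Real.exp (52 * y) := by
      have := Real.add_one_le_exp (52 * y)
      linarith
    have h4 : Real.exp (100 * y) = Real.exp (52 * y) * Real.exp (48 * y) := by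
      rw [← Real.exp_add]
      congr 1
      ring
    have h5 : 2 * Real.exp (48 * y) ≤ Real.exp (52 * y) * Real.exp (48 * y) :=
      mul_le_mul_of_nonneg_right h3 (Real.exp_pos _).le
    have h6 : 1 ≤ Real.exp (48 * y) := Real.one_le_exp (by linarith)
    linarith
  have hQ16 : Q ^ 16 ≤ z := by
    have h1 : (Q : ℝ) ^ 16 ≤ Real.exp (48 * y) := by
      have h2 : (Q : ℝ) ^ 16 ≤ (Real.exp (3 * y)) ^ 16 := pow_le_pow_left₀ hQ0'.le hQ 16
      rw [← Real.exp_nat_mul] at h2
      refine h2.trans (le_of_eq ?_)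
      congr 1
      push_cast
      ring
    have h2 : ((Q ^ 16 : ℕ) : ℝ) ≤ z := by
      push_cast
      linarith
    exact_mod_cast h2
  have hsum := hprimes Q b hQsf hQ16 hrQ hbQ
  set S := (Ioc z (z ^ K)).filter (fun p => p.Prime ∧ p ≡ b [MOD Q]) with hS
  have hz1 : (0 : ℝ) < z := by linarith
  have hSc : Real.exp y ≤ (S.card : ℝ) := by
    have h1 : ∑ p ∈ S, (1 : ℝ) / (p : ℝ) ≤ S.card / z := by
      have h2 : ∀ p ∈ S, (1 : ℝ) / (p : ℝ) ≤ 1 / z := by
        intro p hp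
        rw [hS, mem_filter, mem_Ioc] at hp
        apply one_div_le_one_div_of_le hz1
        exact_mod_cast hp.1.1.le
      refine (Finset.sum_le_sum h2).trans ?_
      rw [Finset.sum_const, nsmul_eq_mul, mul_one_div]
    have h3 : cL / Q ≤ S.card / z := by
      refine le_trans ?_ (hsum.trans h1)
      apply div_le_div_of_nonneg_left hcL.le (by exact_mod_cast Nat.totient_pos.mpr hQ0)
      exact_mod_cast Nat.totient_le Q
    rw [div_le_div_iff₀ hQ0' hz1] at h3
    have h4 : Real.exp (100 * y) / 2 ≤ z := by linarith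
    have h5 : cL * (Real.exp (100 * y) / 2) ≤ S.card * Real.exp (3 * y) := by
      calc cL * (Real.exp (100 * y) / 2) ≤ cL * z := mul_le_mul_of_nonneg_left h4 hcL.le
        _ ≤ S.card * Q := h3
        _ ≤ _ := mul_le_mul_of_nonneg_left hQ (Nat.cast_nonneg _)
    have h6 : Real.exp (100 * y) = Real.exp (96 * y) * Real.exp y * Real.exp (3 * y) := by
      rw [← Real.exp_add, ← Real.exp_add]
      congr 1
      ring
    have h7 : 1 ≤ cL * (Real.exp (96 * y) / 2) := by
      have h8 : 2 * y ≤ Real.exp (96 * y) := by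
        have := Real.add_one_le_exp (96 * y)
        linarith
      have h9 : 1 ≤ y * cL := by
        rwa [div_le_iff₀ hcL] at hycL
      nlinarith
    have h8 : Real.exp y * Real.exp (3 * y) ≤ S.card * Real.exp (3 * y) := by
      refine le_trans ?_ h5
      rw [h6]
      have h9 : cL * (Real.exp (96 * y) * Real.exp y * Real.exp (3 * y) / 2) =
          cL * (Real.exp (96 * y) / 2) * (Real.exp y * Real.exp (3 * y)) := by ring
      rw [h9]
      exact le_mul_of_one_le_left (by positivity) h7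
    exact le_of_mul_le_mul_right h8 (Real.exp_pos _)
  have hXc : X ^ c' ≤ Real.exp y := by
    rw [Real.rpow_def_of_pos hX0]
    apply Real.exp_le_exp.mpr
    have h1 : Real.log X * c' ≤ Real.log X * (1 / (100 * K)) := by
      apply mul_le_mul_of_nonneg_left (min_le_right _ _)
      rw [hlogX]
      positivity
    refine h1.trans (le_of_eq ?_)
    rw [hy]
    ring
  refine hXc.trans (hSc.trans (Nat.cast_le.mpr (card_le_card ?_)))
  intro p hp
  rw [hS, mem_filter, mem_Ioc] at hp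
  obtain ⟨⟨hp1, hp2⟩, hpp, hpb⟩ := hp
  rw [mem_filter, mem_Icc]
  have hpX : (p : ℝ) ≤ X := by
    have h1 : (p : ℝ) ≤ (z : ℝ) ^ K := by exact_mod_cast hp2
    have h2 : (z : ℝ) ^ K ≤ (Real.exp (100 * y)) ^ K := pow_le_pow_left₀ hz1.le hzle K
    rw [← Real.exp_nat_mul] at h2
    rw [hXexp]
    have h3 : (K : ℝ) * (100 * y) = 100 * y * K := by ring
    rw [h3] at h2
    linarith
  refine ⟨⟨hpp.one_lt.le, (Nat.le_floor_iff hX0.le).mpr hpX⟩, hpp, fun f hf q hq => ?_⟩
  by_contra hcon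
  push Not at hcon
  set u : ℤ := (q : ℤ) - f.eval (p : ℤ) with hu
  have hucast : (u : ℝ) = (q : ℝ) - ((f.eval (p : ℤ) : ℤ) : ℝ) := by rw [hu]; push_cast; rfl
  have huT : |(u : ℝ)| ≤ c * RY y := by
    rw [hucast]
    refine hcon.trans ?_
    have h1 : c * (RY (Real.log X) / (4 * (100 * K))) ≤ c * RY y :=
      mul_le_mul_of_nonneg_left e1 hc.le
    have h2 : c' * RY (Real.log X) ≤ c / (400 * K) * RY (Real.log X) :=
      mul_le_mul_of_nonneg_right (min_le_left _ _) e2
    have h3 : c / (400 * K) * RY (Real.log X) = c * (RY (Real.log X) / (4 * (100 * K))) := by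
      field_simp
      ring
    linarith
  have hqu : f.eval (p : ℤ) + u = (q : ℤ) := by rw [hu]; ring
  have hpz : (z : ℝ) < p := by exact_mod_cast hp1
  have hpabs : |(((p : ℤ)) : ℝ)| = (p : ℝ) := by
    rw [Int.cast_natCast]
    exact abs_of_nonneg (Nat.cast_nonneg _)
  have hfn : Real.exp (100 * y) / 4 ≤ |((f.eval (p : ℤ) : ℤ) : ℝ)| := by
    have h1 := hgr f hf (p : ℤ) (by
      rw [hpabs]
      have h2 := le_abs_self N₀
      linarith)
    rw [hpabs] at h1
    linarith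
  have hqbig : Real.exp (100 * y) / 4 - y ^ 2 ≤ (q : ℝ) := by
    have h1 : |((f.eval (p : ℤ) : ℤ) : ℝ)| ≤ |(q : ℝ)| + |(u : ℝ)| := by
      have h2 : ((f.eval (p : ℤ) : ℤ) : ℝ) = (q : ℝ) - (u : ℝ) := by rw [hucast]; ring
      rw [h2]
      exact abs_sub _ _
    have h2 : |(q : ℝ)| = q := abs_of_nonneg (Nat.cast_nonneg _)
    rw [h2] at h1
    linarith
  have hexp2 : y ^ B + y ^ 2 < Real.exp (100 * y) / 4 := by
    have h3 : (40 : ℝ) ≤ Real.exp (99 * y) := by
      have := Real.add_one_le_exp (99 * y)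
      linarith
    have h4 : Real.exp (100 * y) = Real.exp (99 * y) * Real.exp y := by
      rw [← Real.exp_add]
      congr 1
      ring
    have h5 : 40 * Real.exp y ≤ Real.exp (99 * y) * Real.exp y :=
      mul_le_mul_of_nonneg_right h3 (Real.exp_pos _).le
    have h6 := Real.exp_pos y
    linarith
  have hnb : (p : ℤ) ≡ b [ZMOD Q] := (Int.natCast_modEq_iff).mpr hpb
  rcases hhit p hnb f hf u huT with ⟨a, d, had⟩ | ⟨p', hp', hpB, hpd⟩
  · obtain ⟨hd, ha⟩ := mono_deg (hF f hf).1 had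
    have h1 : f.eval (p : ℤ) + u = a * (p : ℤ) ^ d := by
      have h2 : (f + C u).eval (p : ℤ) = (C a * Polynomial.X ^ d : ℤ[X]).eval (p : ℤ) := by rw [had]
      simpa using h2
    rw [hqu] at h1
    have hd1 : 1 ≤ d := by
      rw [hd]
      exact (hF f hf).1
    have hpq : p ∣ q := by
      have h2 : (p : ℤ) ∣ (q : ℤ) := by
        rw [h1]
        exact Dvd.dvd.mul_left (dvd_pow_self _ (by omega)) _
      exact_mod_cast h2
    have hpeq := (Nat.prime_dvd_prime_iff_eq hpp hq).mp hpq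
    rw [← hpeq] at h1
    have hp0 : (p : ℤ) ≠ 0 := by exact_mod_cast hpp.ne_zero
    have h3 : a * (p : ℤ) ^ (d - 1) = 1 := by
      have h4 : (p : ℤ) ^ d = (p : ℤ) ^ (d - 1) * p := by
        rw [← pow_succ]
        congr 1
        omega
      rw [h4, ← mul_assoc] at h1
      have h5 : 1 * (p : ℤ) = a * (p : ℤ) ^ (d - 1) * p := by rw [one_mul]; exact h1
      exact (mul_right_cancel₀ hp0 h5).symm
    have hd0 : d - 1 = 0 := by
      by_contra hne
      have h4 : (p : ℤ) ∣ 1 := by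
        rw [← h3]
        exact Dvd.dvd.mul_left (dvd_pow_self _ hne) _
      have h5 : p ∣ 1 := by exact_mod_cast h4
      exact hpp.one_lt.ne' (Nat.dvd_one.mp h5)
    rw [hd0, pow_zero, mul_one] at h3
    apply (hF f hf).2
    constructor
    · omega
    · rw [← ha, h3]
  · rw [hqu] at hpd
    have h3 : p' ∣ q := by exact_mod_cast hpd
    have h4 := (Nat.prime_dvd_prime_iff_eq hp' hq).mp h3
    rw [h4] at hpB
    linarith

end Pool.Agent.Y670.RP
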