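import Pool.Agent.Y670.RP.Stm

set_option autoImplicit false

/-! # Facts on integer polynomials (helper670) -/

namespace Pool.Agent.Y670.RP

open Polynomial Finset

open scoped Classical

/-- few primes larger than `y` divide a nonzero integer of absolute value at most `y ^ 3` -/
theorem few_div (y : ℝ) (hy : 1 < y) (N : ℤ) (hN : N ≠ 0) (hNy : |(N : ℝ)| ≤ y ^ 3) (s : Finset ℕ)
    (hs : ∀ p ∈ s, p.Prime ∧ y < (p : ℝ) ∧ (p : ℤ) ∣ N) : s.card ≤ 3 := by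
  by_contra hcon
  push Not at hcon
  have h1 : ∏ p ∈ s, p ∣ N.natAbs := by
    apply Finset.prod_primes_dvd
    · intro p hp
      exact (hs p hp).1.prime
    · intro p hp
      exact Int.natCast_dvd.mp (hs p hp).2.2
  have h2 : ∏ p ∈ s, p ≤ N.natAbs := Nat.le_of_dvd (Int.natAbs_pos.mpr hN) h1
  have h3 : ((∏ p ∈ s, p : ℕ) : ℝ) ≤ y ^ 3 := by
    have e1 : ((∏ p ∈ s, p : ℕ) : ℝ) ≤ ((N.natAbs : ℕ) : ℝ) := by exact_mod_cast h2
    have e2 : ((N.natAbs : ℕ) : ℝ) = |(N : ℝ)| := by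
      rw [Nat.cast_natAbs]
      push_cast
      rfl
    rw [e2] at e1
    exact e1.trans hNy
  have h4 : y ^ s.card ≤ ((∏ p ∈ s, p : ℕ) : ℝ) := by
    rw [Nat.cast_prod, ← Finset.prod_const]
    exact Finset.prod_le_prod (fun p _ => by linarith) (fun p hp => (hs p hp).2.1.le)
  have h5 : y ^ 3 < y ^ s.card := pow_lt_pow_right₀ hy hcon
  linarith

/-- splitting off the power of the variable -/
theorem split_X (h : ℤ[X]) (h0 : h ≠ 0) : ∃ (k : ℕ) (g : ℤ[X]), h = X ^ k * g ∧ g.coeff 0 ≠ 0 := by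
  obtain ⟨g, hg, hnd⟩ := h.exists_eq_pow_rootMultiplicity_mul_and_not_dvd h0 0
  rw [C_0, sub_zero] at hg hnd
  refine ⟨h.rootMultiplicity 0, g, hg, ?_⟩
  rwa [Ne, ← X_dvd_iff]

/-- a polynomial that is not a monomial has nonzero roots modulo many primes -/
theorem many_nonzero (hM : S_MPL) (D A : ℕ) (hD : 1 ≤ D) : ∃ (B : ℕ) (y₀ : ℝ), 1 ≤ B ∧
    ∀ y : ℝ, y₀ ≤ y → ∀ ps : ℕ, ∀ h : ℤ[X], 1 ≤ h.natDegree → h.natDegree ≤ D →
    |h.leadingCoeff| ≤ (A : ℤ) → (∀ i : ℕ, |(h.coeff i : ℝ)| ≤ y ^ 3) →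
    (¬ ∃ a : ℤ, ∃ d : ℕ, h = C a * X ^ d) →
    y - 4 ≤ (((Icc 1 ⌊y ^ B⌋₊).filter (fun p : ℕ => p.Prime ∧ y < (p : ℝ) ∧ p ≠ ps ∧
      ∃ t : ℤ, (p : ℤ) ∣ h.eval t ∧ ¬ (p : ℤ) ∣ t)).card : ℝ) := by
  obtain ⟨B, y₀, h1⟩ := hM D A hD
  refine ⟨max B 1, max y₀ 2, le_max_right _ _, fun y hy ps h hd1 hd2 hlc hco hmono => ?_⟩
  have hy0 : y₀ ≤ y := (le_max_left _ _).trans hy
  have hy2 : 2 ≤ y := (le_max_right _ _).trans hy
  have hh0 : h ≠ 0 := by
    intro h0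
    rw [h0, natDegree_zero] at hd1
    omega
  obtain ⟨k, g, hg, hg0⟩ := split_X h hh0
  have hgne : g ≠ 0 := by
    intro h0
    rw [h0, coeff_zero] at hg0
    exact hg0 rfl
  have hdeg : h.natDegree = k + g.natDegree := by
    rw [hg, natDegree_mul (pow_ne_zero _ X_ne_zero) hgne, natDegree_X_pow]
  have hgd : 1 ≤ g.natDegree := by
    by_contra hcon
    have h2 : g.natDegree = 0 := by omega
    obtain ⟨a, ha⟩ := natDegree_eq_zero.mp h2
    exact hmono ⟨a, k, by rw [hg, ← ha, mul_comm]⟩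
  have hlead : g.leadingCoeff = h.leadingCoeff := by
    rw [hg, leadingCoeff_mul, leadingCoeff_X_pow, one_mul]
  have hcg : ∀ i : ℕ, |(g.coeff i : ℝ)| ≤ y ^ 3 := by
    intro i
    have h2 := hco (i + k)
    rw [hg, coeff_X_pow_mul] at h2
    exact h2
  have h2 := h1 y hy0 g hgd (by omega) (by rw [hlead]; exact hlc) hcg
  set S := (Icc 1 ⌊y ^ B⌋₊).filter (fun p : ℕ => p.Prime ∧ y < (p : ℝ) ∧
    ∃ t : ℤ, (p : ℤ) ∣ g.eval t) with hS
  set S' := (Icc 1 ⌊y ^ (max B 1)⌋₊).filter (fun p : ℕ => p.Prime ∧ y < (p : ℝ) ∧ p ≠ ps ∧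
      ∃ t : ℤ, (p : ℤ) ∣ h.eval t ∧ ¬ (p : ℤ) ∣ t) with hS'
  set E := S.filter (fun p : ℕ => (p : ℤ) ∣ g.coeff 0) with hE
  have hEc : E.card ≤ 3 := by
    apply few_div y (by linarith) (g.coeff 0) hg0 (hcg 0)
    intro p hp
    rw [hE, mem_filter, hS, mem_filter] at hp
    exact ⟨hp.1.2.1, hp.1.2.2.1, hp.2⟩
  have hsub : S ⊆ S' ∪ (E ∪ {ps}) := by
    intro p hp
    by_cases hps : p = ps
    · apply mem_union_right
      apply mem_union_right
      rw [mem_singleton]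
      exact hps
    by_cases hpE : p ∈ E
    · exact mem_union_right _ (mem_union_left _ hpE)
    apply mem_union_left
    have hp' := hp
    rw [hS, mem_filter, mem_Icc] at hp'
    obtain ⟨⟨q1, q2⟩, q3, q4, t, q5⟩ := hp'
    rw [hS', mem_filter, mem_Icc]
    refine ⟨⟨q1, q2.trans ?_⟩, q3, q4, hps, t, ?_, ?_⟩
    · apply Nat.floor_le_floor
      exact pow_le_pow_right₀ (by linarith) (le_max_left _ _)
    · rw [hg, eval_mul]
      exact Dvd.dvd.mul_left q5 _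
    · intro hpt
      apply hpE
      rw [hE, mem_filter]
      refine ⟨hp, ?_⟩
      have h3 : t - 0 ∣ g.eval t - g.eval 0 := sub_dvd_eval_sub t 0 g
      rw [sub_zero] at h3
      rw [coeff_zero_eq_eval_zero]
      have h4 := dvd_sub q5 (hpt.trans h3)
      rwa [sub_sub_cancel] at h4
  have h3 : S.card ≤ S'.card + (3 + 1) := by
    refine (card_le_card hsub).trans ((card_union_le _ _).trans ?_)
    apply Nat.add_le_add_left
    refine (card_union_le _ _).trans ?_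
    rw [card_singleton]
    omega
  have h4 : (S.card : ℝ) ≤ (S'.card : ℝ) + 4 := by exact_mod_cast h3
  linarith

/-- a class with a different value -/
theorem exists_nu (F : Finset ℤ[X]) (hF : ∀ f ∈ F, 1 ≤ f.natDegree) :
    ∃ ν : ℕ, 2 ≤ ν ∧ ∀ f ∈ F, f.eval 1 - f.eval (ν : ℤ) ≠ 0 := by
  by_contra hcon
  push Not at hcon
  set P : ℤ[X] := ∏ f ∈ F, (f - C (f.eval 1)) with hP
  have hP0 : P ≠ 0 := by
    rw [hP, Finset.prod_ne_zero_iff]
    intro f hf h0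
    have h1 : f = C (f.eval 1) := sub_eq_zero.mp h0
    have h2 := hF f hf
    rw [h1, natDegree_C] at h2
    omega
  apply hP0
  apply eq_zero_of_infinite_isRoot
  apply Set.infinite_of_injective_forall_mem (f := fun n : ℕ => ((n + 2 : ℕ) : ℤ))
  · intro a b hab
    have : ((a + 2 : ℕ) : ℤ) = ((b + 2 : ℕ) : ℤ) := hab
    have : a + 2 = b + 2 := by exact_mod_cast this
    omega
  · intro n
    obtain ⟨f, hf, h1⟩ := hcon (n + 2) (by omega)
    rw [Set.mem_ofPred_eq, IsRoot.def, hP, eval_prod]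
    apply Finset.prod_eq_zero hf
    rw [eval_sub, eval_C]
    linarith

/-- a nonconstant polynomial grows at least linearly -/
theorem growth (f : ℤ[X]) (hf : 1 ≤ f.natDegree) : ∃ N₀ : ℝ, ∀ n : ℤ, N₀ ≤ |(n : ℝ)| →
    |(n : ℝ)| / 2 ≤ |((f.eval n : ℤ) : ℝ)| := by
  set d := f.natDegree with hd
  set H : ℝ := ∑ i ∈ range d, |(f.coeff i : ℝ)| with hH
  have hH0 : 0 ≤ H := Finset.sum_nonneg fun i _ => abs_nonneg _
  refine ⟨2 * H + 1, fun n hn => ?_⟩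
  have hx1 : 1 ≤ |(n : ℝ)| := by linarith
  have hlc : (1 : ℝ) ≤ |(f.coeff d : ℝ)| := by
    have h0 : f.coeff d ≠ 0 := by
      rw [hd, coeff_natDegree]
      intro h0
      rw [leadingCoeff_eq_zero] at h0
      rw [hd, h0, natDegree_zero] at hf
      omega
    have := Int.one_le_abs h0
    exact_mod_cast this
  have e1 : ((f.eval n : ℤ) : ℝ) = ∑ i ∈ range d, (f.coeff i : ℝ) * (n : ℝ) ^ i +
      (f.coeff d : ℝ) * (n : ℝ) ^ d := by
    rw [eval_eq_sum_range, ← hd, Finset.sum_range_succ]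
    push_cast
    rfl
  have h1 : |∑ i ∈ range d, (f.coeff i : ℝ) * (n : ℝ) ^ i| ≤ H * |(n : ℝ)| ^ (d - 1) := by
    refine (Finset.abs_sum_le_sum_abs _ _).trans ?_
    rw [hH, Finset.sum_mul]
    refine Finset.sum_le_sum fun i hi => ?_
    rw [mem_range] at hi
    rw [abs_mul, abs_pow]
    apply mul_le_mul_of_nonneg_left _ (abs_nonneg _)
    exact pow_le_pow_right₀ hx1 (by omega)
  have h2 : |(n : ℝ)| ^ d ≤ |(f.coeff d : ℝ) * (n : ℝ) ^ d| := by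
    rw [abs_mul, abs_pow]
    exact le_mul_of_one_le_left (by positivity) hlc
  have h3 : |(f.coeff d : ℝ) * (n : ℝ) ^ d| ≤ |((f.eval n : ℤ) : ℝ)| +
      |∑ i ∈ range d, (f.coeff i : ℝ) * (n : ℝ) ^ i| := by
    have e2 : (f.coeff d : ℝ) * (n : ℝ) ^ d = ((f.eval n : ℤ) : ℝ) -
        ∑ i ∈ range d, (f.coeff i : ℝ) * (n : ℝ) ^ i := by rw [e1]; ring
    rw [e2]
    exact abs_sub _ _
  have h4 : |(n : ℝ)| ^ d = |(n : ℝ)| ^ (d - 1) * |(n : ℝ)| := by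
    rw [← pow_succ]
    congr 1
    omega
  have h5 : 1 ≤ |(n : ℝ)| ^ (d - 1) := one_le_pow₀ hx1
  have h6 : |(n : ℝ)| / 2 ≤ |(n : ℝ)| - H := by linarith
  have h7 : |(n : ℝ)| - H ≤ |(n : ℝ)| ^ (d - 1) * (|(n : ℝ)| - H) :=
    le_mul_of_one_le_left (by linarith) h5
  have h8 : |(n : ℝ)| ^ (d - 1) * (|(n : ℝ)| - H) = |(n : ℝ)| ^ d - H * |(n : ℝ)| ^ (d - 1) := by
    rw [h4]; ring
  linarith

end Pool.Agent.Y670.RP
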