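import Mathlib

set_option autoImplicit false

/-! # Small lemmas (after helper426) -/

namespace Pool.Agent.Y670.RP

open Finset

/-- distinct representatives from large sets -/
theorem exists_inj_choice {α : Type} [DecidableEq α] (S : Finset α) (P : α → Finset ℕ) :
    (∀ a ∈ S, S.card ≤ (P a).card) → ∃ f : α → ℕ, (∀ a ∈ S, f a ∈ P a) ∧ Set.InjOn f (S : Set α) := by
  induction S using Finset.induction_on with
  | empty => intro _; exact ⟨fun _ => 0, by simp, by simp⟩
  | insert a S ha ih =>
    intro h
    rw [Finset.card_insert_of_notMem ha] at h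
    obtain ⟨f, hf1, hf2⟩ := ih (fun b hb => by
      have := h b (Finset.mem_insert_of_mem hb)
      omega)
    have h1 : ∃ q ∈ P a, q ∉ S.image f := by
      by_contra hc
      push Not at hc
      have h2 : (P a).card ≤ (S.image f).card := Finset.card_le_card (fun q hq => hc q hq)
      have h3 : (S.image f).card ≤ S.card := Finset.card_image_le
      have h4 := h a (Finset.mem_insert_self _ _)
      omega
    obtain ⟨q, hq1, hq2⟩ := h1
    refine ⟨fun b => if b = a then q else f b, ?_, ?_⟩
    · intro b hb
      by_cases hba : b = a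
      · simp only [hba, if_true]
        exact hq1
      · simp only [hba, if_false]
        exact hf1 b (Finset.mem_of_mem_insert_of_ne hb hba)
    · intro b hb c hc hbc
      rw [Finset.mem_coe] at hb hc
      simp only at hbc
      by_cases hba : b = a
      · by_cases hca : c = a
        · rw [hba, hca]
        · rw [if_pos hba, if_neg hca] at hbc
          exact absurd (Finset.mem_image.mpr ⟨c, Finset.mem_of_mem_insert_of_ne hc hca, hbc.symm⟩)
            hq2
      · by_cases hca : c = a
        · rw [if_neg hba, if_pos hca] at hbc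
          exact absurd (Finset.mem_image.mpr ⟨b, Finset.mem_of_mem_insert_of_ne hb hba, hbc⟩) hq2
        · rw [if_neg hba, if_neg hca] at hbc
          exact hf2 (Finset.mem_of_mem_insert_of_ne hb hba)
            (Finset.mem_of_mem_insert_of_ne hc hca) hbc

theorem primorial_le_exp {y : ℝ} (hy : 0 ≤ y) : (primorial ⌊y⌋₊ : ℝ) ≤ Real.exp (2 * y) := by
  have h1 : (primorial ⌊y⌋₊ : ℝ) ≤ 4 ^ ⌊y⌋₊ := by exact_mod_cast primorial_le_four_pow _
  refine h1.trans ?_
  have h2 : (4 : ℝ) ≤ Real.exp 2 := by
    have := Real.add_one_le_exp (1 : ℝ)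
    calc (4 : ℝ) = 2 * 2 := by norm_num
      _ ≤ Real.exp 1 * Real.exp 1 := by gcongr <;> linarith
      _ = Real.exp 2 := by rw [← Real.exp_add]; norm_num
  calc (4 : ℝ) ^ ⌊y⌋₊ ≤ (Real.exp 2) ^ ⌊y⌋₊ := by gcongr
    _ = Real.exp (⌊y⌋₊ * 2) := by rw [← Real.exp_nat_mul]
    _ ≤ Real.exp (2 * y) := by
      apply Real.exp_le_exp.2
      have := Nat.floor_le hy
      linarith

end Pool.Agent.Y670.RP
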