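import Pool.Agent.Y670.RP.Ana
import Pool.Agent.Y670.RP.Poly
import Pool.Agent.TH325.PQ.Surv3
import Pool.Agent.Y670.RP.Sm

set_option autoImplicit false

/-! # The covering system (helper670) -/

namespace Pool.Agent.Y670.RP

open Polynomial Finset
open Pool.Agent.H426R3.SQ (zR)
open Pool.Agent.TH325.PQ (SVX GX GX_card survivors_ex)

open scoped Classical

/-- `zR y ≤ y` -/
theorem zR_le {y : ℝ} (hy : 0 < y) (h1 : 1 ≤ Real.log y) (h2 : 1 ≤ Real.log (Real.log y)) :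
    zR y ≤ y := by
  unfold zR
  rw [← Real.le_log_iff_exp_le hy, div_le_iff₀ (by positivity)]
  have h3 : Real.log (Real.log (Real.log y)) ≤ Real.log (Real.log y) :=
    (Real.log_le_sub_one_of_pos (by linarith)).trans (by linarith)
  have h4 : Real.log (Real.log (Real.log y)) ≤ 10 * Real.log (Real.log y) := by linarith
  exact mul_le_mul_of_nonneg_left h4 (by linarith)

/-- bounds for the coefficients of a finite set of polynomials -/
theorem exists_bounds (F : Finset ℤ[X]) : ∃ D A : ℕ, 1 ≤ D ∧ ∀ f ∈ F, f.natDegree ≤ D ∧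
    |f.leadingCoeff| ≤ (A : ℤ) ∧ ∀ i : ℕ, |f.coeff i| ≤ (A : ℤ) := by
  set A : ℕ := ∑ f ∈ F, ∑ i ∈ f.support, (f.coeff i).natAbs with hA
  have h1 : ∀ f ∈ F, ∀ i : ℕ, |f.coeff i| ≤ (A : ℤ) := by
    intro f hf i
    by_cases hi : i ∈ f.support
    · have h2 : (f.coeff i).natAbs ≤ ∑ i ∈ f.support, (f.coeff i).natAbs :=
        Finset.single_le_sum (f := fun i => (f.coeff i).natAbs) (fun _ _ => Nat.zero_le _) hi
      have h3 : ∑ i ∈ f.support, (f.coeff i).natAbs ≤ A :=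
        Finset.single_le_sum (f := fun f : ℤ[X] => ∑ i ∈ f.support, (f.coeff i).natAbs)
          (fun _ _ => Nat.zero_le _) hf
      rw [Int.abs_eq_natAbs]
      exact_mod_cast h2.trans h3
    · rw [notMem_support_iff] at hi
      rw [hi, abs_zero]
      exact Int.natCast_nonneg _
  refine ⟨F.sup natDegree + 1, A, by omega, fun f hf => ⟨?_, h1 f hf _, h1 f hf⟩⟩
  exact (Finset.le_sup (f := natDegree) hf).trans (Nat.le_succ _)

/-- the number of the colours -/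
theorem colours (F : Finset ℤ[X]) (ν : ℕ) (hν : ∀ f ∈ F, f.eval 1 - f.eval (ν : ℤ) ≠ 0)
    (c₃ M : ℝ) (hc₃ : 0 < c₃) : ∃ (c : ℝ) (y₀ : ℝ), 0 < c ∧ ∀ y : ℝ, y₀ ≤ y → ∀ T : ℕ,
      T = ⌊c * RY y⌋₊ → M ≤ y ∧ 1 ≤ Real.log y ∧ M ≤ Real.log (Real.log y) ∧ 0 ≤ RY y ∧
      (T : ℝ) ≤ y * Real.log y ∧ ∀ ps : ℕ, (ps = 1 ∨ (ps.Prime ∧ 2 < ps)) →
        ∑ f ∈ F, ((GX (f.eval 1) (f.eval (ν : ℤ)) y T ∅ ps).card : ℝ) ≤ c₃ * (y / Real.log y) := by
  obtain ⟨Cs, hCs, y₁, hsur⟩ := survivors_ex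
  set Pe : ℤ[X] → ℝ := fun f => ∏ p ∈ (f.eval 1 - f.eval (ν : ℤ)).natAbs.primeFactors,
    (1 + 3 / (p : ℝ)) with hPe
  have hPe0 : ∀ f, 0 < Pe f := fun f => Finset.prod_pos fun p _ => by positivity
  set C : ℝ := ∑ f ∈ F, 2 * Cs * Pe f + 1 with hC
  have hC1 : 0 ≤ ∑ f ∈ F, 2 * Cs * Pe f := Finset.sum_nonneg fun f _ => by
    have := hPe0 f
    positivity
  have hC0 : 0 < C := by linarith
  set V : ℝ := ∑ f ∈ F, |((f.eval (ν : ℤ) : ℤ) : ℝ)| with hV
  have hV0 : 0 ≤ V := Finset.sum_nonneg fun i _ => abs_nonneg _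
  obtain ⟨c₂, hc₂, y₂, hana⟩ := ana1 C (c₃ / 2) (max (max M 10) (2 * V + 10)) hC0 (half_pos hc₃)
  obtain ⟨y₃, hlogs⟩ := ev_logs (max 1 (4 * F.card / c₃))
  refine ⟨c₂ / 2, max (max y₁ y₂) y₃, half_pos hc₂, fun y hy T hT => ?_⟩
  have hy1 : y₁ ≤ y := (le_max_left _ _).trans ((le_max_left _ _).trans hy)
  have hy2 : y₂ ≤ y := (le_max_right _ _).trans ((le_max_left _ _).trans hy)
  have hy3 : y₃ ≤ y := (le_max_right _ _).trans hy
  obtain ⟨a1, a2, a3, a4, a5, a6, a7, a8⟩ := hana y hy2 _ rfl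
  obtain ⟨b1, b2, b3, b4, b5⟩ := hlogs y hy3
  set T₀ := ⌊c₂ * RY y⌋₊ with hT₀
  have hM1 : M ≤ max (max M 10) (2 * V + 10) := (le_max_left _ _).trans (le_max_left _ _)
  have hM2 : 10 ≤ max (max M 10) (2 * V + 10) := (le_max_right _ _).trans (le_max_left _ _)
  have hM3 : 2 * V + 10 ≤ max (max M 10) (2 * V + 10) := le_max_right _ _
  have hRY0 : 0 ≤ RY y := by
    have h1 : (0 : ℝ) ≤ c₂ * RY y := le_trans (Nat.cast_nonneg _) a6
    by_contra hcon
    push Not at hcon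
    have := mul_neg_of_pos_of_neg hc₂ hcon
    linarith
  have hTle : (T : ℝ) ≤ c₂ / 2 * RY y := by
    rw [hT]
    exact Nat.floor_le (by positivity)
  have hTT₀ : (T : ℝ) ≤ c₂ * RY y / 2 := by linarith
  have hT₀lt : c₂ * RY y < T₀ + 1 := Nat.lt_floor_add_one _
  refine ⟨by linarith, a2, by linarith, hRY0, ?_, fun ps hps => ?_⟩
  · have : (T : ℝ) ≤ T₀ := by
      have h1 : T ≤ T₀ := by
        rw [hT, hT₀]
        apply Nat.floor_le_floor
        apply mul_le_mul_of_nonneg_right _ hRY0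
        linarith
      exact_mod_cast h1
    linarith
  set R : ℝ := (T₀ : ℝ) * (Real.log (Real.log y)) ^ 2 /
        ((Real.log y) ^ 2 * Real.log (Real.log (Real.log y))) with hR
  have hl1 : 0 < Real.log y := by linarith
  have hl3 : 0 < Real.log (Real.log (Real.log y)) := by linarith
  have hR0 : 0 ≤ R := by positivity
  have hone : ∀ f ∈ F, ((GX (f.eval 1) (f.eval (ν : ℤ)) y T ∅ ps).card : ℝ) ≤
      2 * Cs * Pe f * R + 1 := by
    intro f hf
    have hVf : |((f.eval (ν : ℤ) : ℤ) : ℝ)| ≤ V :=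
      Finset.single_le_sum (f := fun f : ℤ[X] => |((f.eval (ν : ℤ) : ℤ) : ℝ)|)
        (fun _ _ => abs_nonneg _) hf
    have hTT : (T : ℤ) + |f.eval (ν : ℤ)| ≤ T₀ := by
      have h1 : (T : ℝ) + |((f.eval (ν : ℤ) : ℤ) : ℝ)| ≤ T₀ := by linarith
      exact_mod_cast h1
    refine (GX_card (f.eval 1) (f.eval (ν : ℤ)) y T T₀ hTT ∅ ps).trans ?_
    have hne := hν f hf
    have hT₀b : (T₀ : ℝ) ≤ y * (Real.log y) ^ 2 := by
      refine a7.trans ?_
      apply mul_le_mul_of_nonneg_left _ (by linarith)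
      exact le_self_pow₀ a2 (by norm_num)
    have hS1 : ∀ q ∈ (∅ : Finset ℕ), q.Prime ∧ 2 < q := by simp
    have hS2 : ∑ q ∈ (∅ : Finset ℕ), (1 : ℝ) / q ≤ 12 / (Real.log y) ^ 2 := by
      rw [Finset.sum_empty]
      positivity
    have h1 := hsur y hy1 T₀ a5 hT₀b ∅ ps hS1 hS2 hps _ hne
    have h2 := hsur y hy1 T₀ a5 hT₀b ∅ ps hS1 hS2 hps _ (neg_ne_zero.mpr hne)
    rw [Int.natAbs_neg] at h2
    have h1' : ((SVX y T₀ ∅ ps (f.eval 1 - f.eval (ν : ℤ))).card : ℝ) ≤ Cs * T₀ *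
        (Real.log (Real.log y)) ^ 2 /
        ((Real.log y) ^ 2 * Real.log (Real.log (Real.log y))) * Pe f := by
      refine le_trans (le_of_eq ?_) h1
      unfold SVX
      congr!
    have h2' : ((SVX y T₀ ∅ ps (-(f.eval 1 - f.eval (ν : ℤ)))).card : ℝ) ≤ Cs * T₀ *
        (Real.log (Real.log y)) ^ 2 /
        ((Real.log y) ^ 2 * Real.log (Real.log (Real.log y))) * Pe f := by
      refine le_trans (le_of_eq ?_) h2
      unfold SVX
      congr!
    have e1 : Cs * T₀ * (Real.log (Real.log y)) ^ 2 /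
        ((Real.log y) ^ 2 * Real.log (Real.log (Real.log y))) * Pe f = Cs * Pe f * R := by
      rw [hR]
      ring
    rw [e1] at h1' h2'
    linarith
  have hsum : ∑ f ∈ F, ((GX (f.eval 1) (f.eval (ν : ℤ)) y T ∅ ps).card : ℝ) ≤
      C * R + F.card := by
    refine (Finset.sum_le_sum hone).trans ?_
    rw [Finset.sum_add_distrib, ← Finset.sum_mul, Finset.sum_const, nsmul_eq_mul, mul_one, hC]
    have : (∑ f ∈ F, 2 * Cs * Pe f) * R ≤ (∑ f ∈ F, 2 * Cs * Pe f + 1) * R :=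
      mul_le_mul_of_nonneg_right (by linarith) hR0
    linarith
  have e2 : C * T₀ * (Real.log (Real.log y)) ^ 2 /
        ((Real.log y) ^ 2 * Real.log (Real.log (Real.log y))) = C * R := by
    rw [hR]
    ring
  rw [e2] at a8
  have h5 : Real.log y / 2 ≤ y / Real.log y := by
    rw [div_le_div_iff₀ (by norm_num) hl1]
    have h6 := Real.quadratic_le_exp_of_nonneg hl1.le
    have hy0 : 0 < y := by linarith
    rw [Real.exp_log hy0] at h6
    nlinarith
  have h7 : (F.card : ℝ) ≤ c₃ / 2 * (y / Real.log y) := by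
    have h8 : 4 * F.card / c₃ ≤ Real.log y := (le_max_right _ _).trans b2
    rw [div_le_iff₀ hc₃] at h8
    have h9 : c₃ / 2 * (Real.log y / 2) ≤ c₃ / 2 * (y / Real.log y) :=
      mul_le_mul_of_nonneg_left h5 (by positivity)
    linarith
  linarith

/-- the covering system -/
theorem cover (hM : S_MPL) (F : Finset ℤ[X]) (hF : ∀ f ∈ F, 1 ≤ f.natDegree) :
    ∃ (c : ℝ) (B : ℕ) (y₀ : ℝ), 0 < c ∧ 1 ≤ B ∧ ∀ y : ℝ, y₀ ≤ y → 0 ≤ RY y ∧ c * RY y ≤ y ^ 2 ∧
      ∀ ps : ℕ, (ps = 1 ∨ (ps.Prime ∧ 2 < ps)) → ∃ Q b : ℕ, Squarefree Q ∧ (ps ≠ 1 → ¬ ps ∣ Q) ∧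
        (Q : ℝ) ≤ Real.exp (3 * y) ∧ b.Coprime Q ∧ (∀ p : ℕ, p.Prime → p ∣ Q → (p : ℝ) ≤ y ^ B) ∧
        ∀ n : ℤ, n ≡ b [ZMOD Q] → ∀ f ∈ F, ∀ u : ℤ, |(u : ℝ)| ≤ c * RY y →
          (∃ a : ℤ, ∃ d : ℕ, f + C u = C a * X ^ d) ∨
          ∃ p : ℕ, p.Prime ∧ (p : ℝ) ≤ y ^ B ∧ (p : ℤ) ∣ f.eval n + u := by
  obtain ⟨D, A, hD1, hDA⟩ := exists_bounds F
  obtain ⟨B, y₁, hB1, hmany⟩ := many_nonzero hM D A hD1
  obtain ⟨ν, hν2, hν⟩ := exists_nu F hF
  have hB0 : (1 : ℝ) ≤ B := by exact_mod_cast hB1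
  obtain ⟨c, y₂, hc, hcol⟩ := colours F ν hν (1 / (2 * B)) (max 10 (A : ℝ)) (by positivity)
  obtain ⟨y₃, hlogs⟩ := ev_logs (max 10 (10 * (ν : ℝ)))
  refine ⟨c, B, max (max y₁ y₂) y₃, hc, hB1, fun y hy => ?_⟩
  have hy1 : y₁ ≤ y := (le_max_left _ _).trans ((le_max_left _ _).trans hy)
  have hy2 : y₂ ≤ y := (le_max_right _ _).trans ((le_max_left _ _).trans hy)
  have hy3 : y₃ ≤ y := (le_max_right _ _).trans hy
  obtain ⟨a1, a2, a3, a4, a5, a6⟩ := hcol y hy2 _ rfl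
  obtain ⟨b1, b2, b3, b4, b5⟩ := hlogs y hy3
  set T := ⌊c * RY y⌋₊ with hT
  have hMx1 : (10 : ℝ) ≤ max 10 (A : ℝ) := le_max_left _ _
  have hMx2 : (A : ℝ) ≤ max 10 (A : ℝ) := le_max_right _ _
  have hNx1 : (10 : ℝ) ≤ max 10 (10 * (ν : ℝ)) := le_max_left _ _
  have hNx2 : 10 * (ν : ℝ) ≤ max 10 (10 * (ν : ℝ)) := le_max_right _ _
  have hy10 : 10 ≤ y := by linarith
  have hy0 : 0 < y := by linarith
  have hcRY0 : 0 ≤ c * RY y := by positivity
  have hTle : (T : ℝ) ≤ c * RY y := Nat.floor_le hcRY0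
  have hTlt : c * RY y < T + 1 := Nat.lt_floor_add_one _
  have hlogy : Real.log y ≤ y - 1 := Real.log_le_sub_one_of_pos hy0
  have hTy2 : (T : ℝ) + 1 ≤ y ^ 2 := by
    have h1 : y * Real.log y ≤ y * (y - 1) := mul_le_mul_of_nonneg_left hlogy hy0.le
    nlinarith
  refine ⟨a4, by linarith, fun ps hps => ?_⟩
  -- the sieving limit
  have hl1 : 0 < Real.log y := by linarith
  have hl2 : 0 < Real.log (Real.log y) := by linarith
  have hl3 : 0 < Real.log (Real.log (Real.log y)) := by linarith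
  have hzy : zR y ≤ y := zR_le hy0 (by linarith) (by linarith)
  have hνz : (ν : ℝ) < zR y := by
    have h1 : (ν : ℝ) ≤ Real.log y * Real.log (Real.log (Real.log y)) /
        (10 * Real.log (Real.log y)) := by
      rw [le_div_iff₀ (by positivity)]
      have h2 : (max 10 (10 * (ν : ℝ))) * Real.log (Real.log y) ^ 2 ≤ Real.log y := b5
      have h3 : 10 * (ν : ℝ) * Real.log (Real.log y) ≤
          (max 10 (10 * (ν : ℝ))) * Real.log (Real.log y) ^ 2 := by
        apply mul_le_mul hNx2 _ hl2.le (by linarith)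
        exact le_self_pow₀ (by linarith) (by norm_num)
      have h4 : Real.log y * 1 ≤ Real.log y * Real.log (Real.log (Real.log y)) :=
        mul_le_mul_of_nonneg_left (by linarith) hl1.le
      calc (ν : ℝ) * (10 * Real.log (Real.log y)) = 10 * (ν : ℝ) * Real.log (Real.log y) := by ring
        _ ≤ Real.log y * Real.log (Real.log (Real.log y)) := by linarith
    unfold zR
    have h5 := Real.add_one_le_exp (Real.log y * Real.log (Real.log (Real.log y)) /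
        (10 * Real.log (Real.log y)))
    linarith
  -- the colours
  set 𝒢 : Finset (ℤ[X] × ℤ) := F.biUnion (fun f =>
    ((GX (f.eval 1) (f.eval (ν : ℤ)) y T ∅ ps).filter
      (fun u => ¬ ∃ a : ℤ, ∃ d : ℕ, f + C u = C a * X ^ d)).image (fun u => (f, u))) with h𝒢
  have h𝒢iff : ∀ f : ℤ[X], ∀ u : ℤ, (f, u) ∈ 𝒢 ↔ f ∈ F ∧
      u ∈ GX (f.eval 1) (f.eval (ν : ℤ)) y T ∅ ps ∧
      ¬ ∃ a : ℤ, ∃ d : ℕ, f + C u = C a * X ^ d := by
    intro f u
    rw [h𝒢, mem_biUnion]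
    constructor
    · rintro ⟨g, hg, hx⟩
      rw [mem_image] at hx
      obtain ⟨v, hv, hvu⟩ := hx
      rw [Prod.mk.injEq] at hvu
      obtain ⟨rfl, rfl⟩ := hvu
      rw [mem_filter] at hv
      exact ⟨hg, hv⟩
    · rintro ⟨hf, hu⟩
      refine ⟨f, hf, ?_⟩
      rw [mem_image]
      exact ⟨u, mem_filter.mpr hu, rfl⟩
  have h𝒢card : (𝒢.card : ℝ) ≤ 1 / (2 * B) * (y / Real.log y) := by
    refine le_trans ?_ (a6 ps hps)
    have h1 : 𝒢.card ≤ ∑ f ∈ F, (GX (f.eval 1) (f.eval (ν : ℤ)) y T ∅ ps).card := by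
      rw [h𝒢]
      refine card_biUnion_le.trans (Finset.sum_le_sum fun f _ => ?_)
      exact card_image_le.trans (card_le_card (filter_subset _ _))
    exact_mod_cast h1
  have hcost : (B : ℝ) * 𝒢.card * Real.log y ≤ y / 2 := by
    have h1 : (B : ℝ) * 𝒢.card * Real.log y ≤ B * (1 / (2 * B) * (y / Real.log y)) * Real.log y := by
      apply mul_le_mul_of_nonneg_right _ hl1.le
      exact mul_le_mul_of_nonneg_left h𝒢card (by linarith)
    refine h1.trans (le_of_eq ?_)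
    field_simp
  have h𝒢y : (𝒢.card : ℝ) ≤ y - 4 := by
    have h1 : (𝒢.card : ℝ) ≤ (B : ℝ) * 𝒢.card * Real.log y := by
      have h2 : (𝒢.card : ℝ) * 1 ≤ 𝒢.card * ((B : ℝ) * Real.log y) := by
        apply mul_le_mul_of_nonneg_left _ (Nat.cast_nonneg _)
        nlinarith
      linarith
    linarith
  -- the primes of the colours
  set P : ℤ[X] × ℤ → Finset ℕ := fun x => (Icc 1 ⌊y ^ B⌋₊).filter (fun p : ℕ => p.Prime ∧
    y < (p : ℝ) ∧ p ≠ ps ∧ ∃ t : ℤ, (p : ℤ) ∣ (x.1 + C x.2).eval t ∧ ¬ (p : ℤ) ∣ t) with hP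
  have hPc : ∀ x ∈ 𝒢, 𝒢.card ≤ (P x).card := by
    rintro ⟨f, u⟩ hx
    obtain ⟨hf, huG, hmono⟩ := (h𝒢iff f u).mp hx
    have huT : |u| ≤ (T : ℤ) := by
      unfold GX at huG
      rw [mem_filter, mem_Icc] at huG
      exact abs_le.mpr huG.1
    obtain ⟨q1, q2, q3⟩ := hDA f hf
    have hfd := hF f hf
    have hdC : (C u : ℤ[X]).degree < f.degree := by
      refine lt_of_le_of_lt degree_C_le ?_
      rw [← natDegree_pos_iff_degree_pos]
      omega
    have h1 := hmany y hy1 ps (f + C u) (by rw [natDegree_add_C]; exact hfd)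
      (by rw [natDegree_add_C]; exact q1) (by rw [leadingCoeff_add_of_degree_lt' hdC]; exact q2)
      (by
        intro i
        rw [coeff_add, coeff_C]
        have h2 : |(f.coeff i : ℝ)| ≤ A := by exact_mod_cast q3 i
        have h3 : |((if i = 0 then u else 0 : ℤ) : ℝ)| ≤ T := by
          split_ifs
          · exact_mod_cast huT
          · simp
        rw [Int.cast_add]
        refine (abs_add_le _ _).trans ?_
        have h4 : (A : ℝ) ≤ y := by linarith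
        have h5 : y ^ 3 = y * y ^ 2 := by ring
        nlinarith [sq_nonneg y])
      hmono
    have h2 : (𝒢.card : ℝ) ≤ ((P (f, u)).card : ℝ) := h𝒢y.trans h1
    exact_mod_cast h2
  obtain ⟨pu, hpu, hinj⟩ := exists_inj_choice 𝒢 P hPc
  have hpu' : ∀ x ∈ 𝒢, (pu x).Prime ∧ y < (pu x : ℝ) ∧ (pu x : ℝ) ≤ y ^ B ∧ pu x ≠ ps ∧
      ∃ t : ℤ, (pu x : ℤ) ∣ (x.1 + C x.2).eval t ∧ ¬ (pu x : ℤ) ∣ t := by
    intro x hx
    have h1 := hpu x hx
    rw [hP, mem_filter, mem_Icc] at h1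
    obtain ⟨⟨-, r1⟩, r2, r3, r4, r5⟩ := h1
    refine ⟨r2, r3, ?_, r4, r5⟩
    calc (pu x : ℝ) ≤ (⌊y ^ B⌋₊ : ℝ) := by exact_mod_cast r1
      _ ≤ y ^ B := Nat.floor_le (by positivity)
  -- the primes of the modulus
  set I₁ : Finset ℕ := (Icc 1 ⌊y⌋₊).filter (fun p => p.Prime ∧ p ≠ ps) with hI₁
  set I₂ : Finset ℕ := 𝒢.image pu with hI₂
  have hI₁m : ∀ p ∈ I₁, p.Prime ∧ (p : ℝ) ≤ y ∧ p ≠ ps := by
    intro p hp
    rw [hI₁, mem_filter, mem_Icc] at hp
    exact ⟨hp.2.1, (Nat.le_floor_iff hy0.le).mp hp.1.2, hp.2.2⟩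
  have hI₂m : ∀ p ∈ I₂, p.Prime ∧ y < (p : ℝ) ∧ (p : ℝ) ≤ y ^ B ∧ p ≠ ps := by
    intro p hp
    rw [hI₂, mem_image] at hp
    obtain ⟨x, hx, rfl⟩ := hp
    obtain ⟨r1, r2, r3, r4, -⟩ := hpu' x hx
    exact ⟨r1, r2, r3, r4⟩
  have hdisj : Disjoint I₁ I₂ := by
    rw [Finset.disjoint_left]
    intro p hp1 hp2
    have h1 := (hI₁m p hp1).2.1
    have h2 := (hI₂m p hp2).2.1
    linarith
  set I : Finset ℕ := I₁ ∪ I₂ with hI
  have hIp : ∀ p ∈ I, p.Prime ∧ p ≠ ps ∧ (p : ℝ) ≤ y ^ B := by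
    intro p hp
    rw [hI, mem_union] at hp
    rcases hp with hp | hp
    · obtain ⟨r1, r2, r3⟩ := hI₁m p hp
      refine ⟨r1, r3, r2.trans ?_⟩
      exact le_self_pow₀ (by linarith) (by omega)
    · obtain ⟨r1, r2, r3, r4⟩ := hI₂m p hp
      exact ⟨r1, r4, r3⟩
  -- the residues
  have hres : ∀ p : ℕ, ∃ r : ℕ, p ∈ I → (¬ p ∣ r ∧ ((p : ℝ) ≤ zR y → r = 1) ∧
      (zR y < (p : ℝ) → (p : ℝ) ≤ y → r = ν) ∧
      ∀ x ∈ 𝒢, pu x = p → (p : ℤ) ∣ (x.1 + C x.2).eval (r : ℤ)) := by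
    intro p
    by_cases hp : p ∈ I
    · have hpp := (hIp p hp).1
      rw [hI, mem_union] at hp
      rcases hp with hp | hp
      · have hpy := (hI₁m p hp).2.1
        have hno : ∀ x ∈ 𝒢, pu x ≠ p := by
          intro x hx hxp
          have := (hpu' x hx).2.1
          rw [hxp] at this
          linarith
        rcases le_or_gt (p : ℝ) (zR y) with hz | hz
        · refine ⟨1, fun _ => ⟨?_, fun _ => rfl, fun h => absurd h (not_lt.mpr hz), ?_⟩⟩
          · intro h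
            exact hpp.one_lt.ne' (Nat.dvd_one.mp h)
          · intro x hx hxp
            exact absurd hxp (hno x hx)
        · refine ⟨ν, fun _ => ⟨?_, fun h => absurd h (not_le.mpr hz), fun _ _ => rfl, ?_⟩⟩
          · intro h
            have h1 := Nat.le_of_dvd (by omega) h
            have h2 : (p : ℝ) ≤ ν := by exact_mod_cast h1
            linarith
          · intro x hx hxp
            exact absurd hxp (hno x hx)
      · have hpy := (hI₂m p hp).2.1
        rw [hI₂, mem_image] at hp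
        obtain ⟨x, hx, hxp⟩ := hp
        obtain ⟨-, -, -, -, t, ht1, ht2⟩ := hpu' x hx
        rw [hxp] at ht1 ht2
        have hp0 : (p : ℤ) ≠ 0 := by exact_mod_cast hpp.ne_zero
        have hcast : ((t % p).toNat : ℤ) = t % p := Int.toNat_of_nonneg (Int.emod_nonneg _ hp0)
        have hcong : (p : ℤ) ∣ t - ((t % p).toNat : ℤ) := by
          rw [hcast]
          exact Int.dvd_self_sub_emod
        refine ⟨(t % p).toNat, fun _ => ⟨?_, ?_, ?_, ?_⟩⟩
        · intro h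
          apply ht2
          have h1 : (p : ℤ) ∣ ((t % p).toNat : ℤ) := by exact_mod_cast h
          have h2 := dvd_add hcong h1
          rwa [sub_add_cancel] at h2
        · intro h
          linarith
        · intro _ h
          linarith
        · intro x' hx' hxp'
          have h1 : x' = x := hinj (by simpa using hx') (by simpa using hx) (by rw [hxp', hxp])
          rw [h1]
          have h2 := sub_dvd_eval_sub t ((t % p).toNat : ℤ) (x.1 + C x.2)
          have h3 := dvd_sub ht1 (hcong.trans h2)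
          rwa [sub_sub_cancel] at h3
    · exact ⟨0, fun h => absurd h hp⟩
  choose r hr using hres
  obtain ⟨b, hb⟩ := Nat.chineseRemainderOfFinset r (fun p => p) I
    (fun p hp => (hIp p hp).1.ne_zero)
    (fun p hp q hq hpq => (Nat.coprime_primes (hIp p (by simpa using hp)).1
      (hIp q (by simpa using hq)).1).2 hpq)
  have hdvdQ : ∀ p : ℕ, p.Prime → p ∣ ∏ p ∈ I, p → p ∈ I := by
    intro p hp hd
    obtain ⟨q, hq, hpq⟩ := (Prime.dvd_finsetProd_iff hp.prime _).mp hd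
    have h1 := (Nat.prime_dvd_prime_iff_eq hp (hIp q hq).1).mp hpq
    rw [h1]
    exact hq
  refine ⟨∏ p ∈ I, p, b, ?_, ?_, ?_, ?_, ?_, ?_⟩
  · rw [← Finset.prod_congr rfl (fun p _ => rfl)]
    apply Finset.squarefree_prod_of_pairwise_isCoprime
    · intro p hp q hq hpq
      have h1 := (Nat.coprime_primes (hIp p (by simpa using hp)).1
        (hIp q (by simpa using hq)).1).2 hpq
      exact Nat.coprime_iff_isRelPrime.mp h1
    · intro p hp
      exact (hIp p hp).1.prime.squarefree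
  · intro hps1 hd
    have hpsp : ps.Prime := by
      rcases hps with h | h
      · exact absurd h hps1
      · exact h.1
    exact (hIp ps (hdvdQ ps hpsp hd)).2.1 rfl
  · rw [hI, Finset.prod_union hdisj]
    push_cast
    have h1 : (∏ p ∈ I₁, (p : ℝ)) ≤ Real.exp (2 * y) := by
      refine le_trans ?_ (primorial_le_exp hy0.le)
      have h2 : ∏ p ∈ I₁, p ∣ primorial ⌊y⌋₊ := by
        unfold primorial
        apply Finset.prod_dvd_prod_of_subset
        intro p hp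
        rw [hI₁, mem_filter, mem_Icc] at hp
        rw [mem_filter, mem_range]
        exact ⟨by omega, hp.2.1⟩
      have h3 := Nat.le_of_dvd (primorial_pos _) h2
      have h4 : ((∏ p ∈ I₁, p : ℕ) : ℝ) ≤ (primorial ⌊y⌋₊ : ℝ) := Nat.cast_le.mpr h3
      rwa [Nat.cast_prod] at h4
    have h2 : (∏ p ∈ I₂, (p : ℝ)) ≤ Real.exp (y / 2) := by
      rw [hI₂, Finset.prod_image (fun x hx x' hx' h => hinj (by simpa using hx)
        (by simpa using hx') h)]
      have h3 : ∏ x ∈ 𝒢, (pu x : ℝ) ≤ ∏ x ∈ 𝒢, y ^ B :=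
        Finset.prod_le_prod (fun x _ => Nat.cast_nonneg _) (fun x hx => (hpu' x hx).2.2.1)
      refine h3.trans ?_
      rw [Finset.prod_const, ← pow_mul, ← Real.exp_log (pow_pos hy0 (B * 𝒢.card)), Real.log_pow]
      apply Real.exp_le_exp.mpr
      push_cast
      exact hcost
    calc (∏ p ∈ I₁, (p : ℝ)) * (∏ p ∈ I₂, (p : ℝ)) ≤ Real.exp (2 * y) * Real.exp (y / 2) :=
          mul_le_mul h1 h2 (Finset.prod_nonneg fun p _ => Nat.cast_nonneg _) (Real.exp_pos _).le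
      _ = Real.exp (2 * y + y / 2) := by rw [Real.exp_add]
      _ ≤ Real.exp (3 * y) := Real.exp_le_exp.mpr (by linarith)
  · apply Nat.Coprime.prod_right
    intro p hp
    have hpp := (hIp p hp).1
    rw [Nat.coprime_comm, Nat.Prime.coprime_iff_not_dvd hpp]
    intro hd
    have h5 : b ≡ 0 [MOD p] := (Nat.modEq_zero_iff_dvd).2 hd
    exact (hr p hp).1 ((Nat.modEq_zero_iff_dvd).1 ((hb p hp).symm.trans h5))
  · intro p hp hd
    exact (hIp p (hdvdQ p hp hd)).2.2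
  · intro n hn f hf u hu
    by_cases hmono : ∃ a : ℤ, ∃ d : ℕ, f + C u = C a * X ^ d
    · exact Or.inl hmono
    right
    have huT : |u| ≤ (T : ℤ) := by
      have h1 : u.natAbs ≤ T := by
        rw [hT]
        apply Nat.le_floor
        rw [Nat.cast_natAbs]
        push_cast
        exact hu
      rw [Int.abs_eq_natAbs]
      exact_mod_cast h1
    have hcongr : ∀ p ∈ I, (p : ℤ) ∣ n - (r p : ℤ) := by
      intro p hp
      have h1 : (p : ℤ) ∣ ((∏ p ∈ I, p : ℕ) : ℤ) := by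
        exact_mod_cast Finset.dvd_prod_of_mem (fun p => p) hp
      have h2 : n ≡ b [ZMOD p] := hn.of_dvd h1
      have h3 : (b : ℤ) ≡ (r p : ℤ) [ZMOD p] := (Int.natCast_modEq_iff).mpr (hb p hp)
      exact (h2.trans h3).symm.dvd
    have hval : ∀ p ∈ I, ∀ g : ℤ[X], (p : ℤ) ∣ g.eval (r p : ℤ) → (p : ℤ) ∣ g.eval n := by
      intro p hp g hg
      have h1 := (hcongr p hp).trans (sub_dvd_eval_sub n (r p : ℤ) g)
      have h2 := dvd_add h1 hg
      rwa [sub_add_cancel] at h2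
    by_cases hG : u ∈ GX (f.eval 1) (f.eval (ν : ℤ)) y T ∅ ps
    · have hx : (f, u) ∈ 𝒢 := (h𝒢iff f u).mpr ⟨hf, hG, hmono⟩
      have hpI : pu (f, u) ∈ I := by
        rw [hI, mem_union]
        right
        rw [hI₂, mem_image]
        exact ⟨(f, u), hx, rfl⟩
      refine ⟨pu (f, u), (hpu' _ hx).1, (hpu' _ hx).2.2.1, ?_⟩
      have h1 := hval _ hpI _ ((hr _ hpI).2.2.2 (f, u) hx rfl)
      simpa using h1
    · have hG' : ¬ ((∀ p : ℕ, p.Prime → zR y < (p : ℝ) → (p : ℝ) ≤ y → p ∉ (∅ : Finset ℕ) → p ≠ ps →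
          ¬ (p : ℤ) ∣ f.eval (ν : ℤ) + u) ∧
          (∀ p : ℕ, p.Prime → (p : ℝ) ≤ zR y → p ∉ (∅ : Finset ℕ) → p ≠ ps →
            ¬ (p : ℤ) ∣ f.eval 1 + u)) := by
        intro h
        apply hG
        unfold GX
        rw [mem_filter, mem_Icc]
        exact ⟨abs_le.mp huT, h⟩
      have hPI : ∀ p : ℕ, p.Prime → (p : ℝ) ≤ y → p ≠ ps → p ∈ I := by
        intro p hp hpy hpps
        rw [hI, mem_union]
        left
        rw [hI₁, mem_filter, mem_Icc]
        exact ⟨⟨hp.one_lt.le, (Nat.le_floor_iff hy0.le).mpr hpy⟩, hp, hpps⟩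
      rw [not_and_or] at hG'
      rcases hG' with h | h
      · push Not at h
        obtain ⟨p, hp, hp1, hp2, -, hp4, hp5⟩ := h
        have hpI := hPI p hp hp2 hp4
        refine ⟨p, hp, (hIp p hpI).2.2, ?_⟩
        have h1 : (p : ℤ) ∣ (f + C u).eval (r p : ℤ) := by
          rw [(hr p hpI).2.2.1 hp1 hp2]
          simpa using hp5
        have h2 := hval p hpI _ h1
        simpa using h2
      · push Not at h
        obtain ⟨p, hp, hp1, -, hp4, hp5⟩ := h
        have hpI := hPI p hp (hp1.trans hzy) hp4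
        refine ⟨p, hp, (hIp p hpI).2.2, ?_⟩
        have h1 : (p : ℤ) ∣ (f + C u).eval (r p : ℤ) := by
          rw [(hr p hpI).2.1 hp1]
          simpa using hp5
        have h2 := hval p hpI _ h1
        simpa using h2

end Pool.Agent.Y670.RP
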