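import Pool.Agent.Y670.RP.Cover

set_option autoImplicit false

/-! # Values at integers (helper670) -/

namespace Pool.Agent.Y670.RP

open Polynomial Finset Filter

open scoped Classical

theorem growthF (F : Finset ℤ[X]) (hF : ∀ f ∈ F, 1 ≤ f.natDegree) : ∃ N₀ : ℝ, ∀ f ∈ F, ∀ n : ℤ,
    N₀ ≤ |(n : ℝ)| → |(n : ℝ)| / 2 ≤ |((f.eval n : ℤ) : ℝ)| := by
  induction F using Finset.induction_on with
  | empty => exact ⟨0, by simp⟩
  | insert g F hg ih =>
    obtain ⟨N₁, h1⟩ := ih (fun f hf => hF f (mem_insert_of_mem hf))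
    obtain ⟨N₂, h2⟩ := growth g (hF g (mem_insert_self _ _))
    refine ⟨max N₁ N₂, fun f hf n hn => ?_⟩
    rw [mem_insert] at hf
    rcases hf with rfl | hf
    · exact h2 n ((le_max_right _ _).trans hn)
    · exact h1 f hf n ((le_max_left _ _).trans hn)

/-- powers against the exponential -/
theorem pow_exp (B : ℕ) : ∃ y₀ : ℝ, ∀ y : ℝ, y₀ ≤ y → y ^ B ≤ Real.exp y ∧ y ^ 2 ≤ Real.exp y := by
  have h1 : ∀ n : ℕ, ∀ᶠ y : ℝ in atTop, y ^ n ≤ Real.exp y := by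
    intro n
    have h2 : ∀ᶠ y : ℝ in atTop, ‖y ^ n‖ ≤ 1 * ‖Real.exp y‖ :=
      (Real.isLittleO_pow_exp_atTop (n := n)).bound one_pos
    filter_upwards [h2, eventually_ge_atTop 0] with y hy hy0
    rw [one_mul, Real.norm_of_nonneg (by positivity), Real.norm_of_nonneg (Real.exp_pos _).le] at hy
    exact hy
  obtain ⟨y₀, h⟩ := Filter.eventually_atTop.1 ((h1 B).and (h1 2))
  exact ⟨y₀, fun y hy => h y hy⟩

/-- a representative of a residue class in an interval -/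
theorem exists_rep (b Q : ℕ) (hQ : 0 < Q) (M : ℝ) : ∃ n : ℤ, M < n ∧ (n : ℝ) ≤ M + Q ∧
    n ≡ b [ZMOD Q] := by
  have hQ' : (0 : ℝ) < Q := by exact_mod_cast hQ
  set k : ℤ := ⌊(M - b) / Q⌋ + 1 with hk
  have h1 : (M - b) / Q < k := by
    rw [hk]
    push_cast
    exact Int.lt_floor_add_one _
  have h2 : (k : ℝ) ≤ (M - b) / Q + 1 := by
    rw [hk]
    push_cast
    linarith [Int.floor_le ((M - b) / (Q : ℝ))]
  refine ⟨b + Q * k, ?_, ?_, ?_⟩
  · rw [div_lt_iff₀ hQ'] at h1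
    push_cast
    linarith
  · have h3 : (Q : ℝ) * k ≤ Q * ((M - b) / Q + 1) := mul_le_mul_of_nonneg_left h2 hQ'.le
    have h4 : (Q : ℝ) * ((M - b) / Q + 1) = M - b + Q := by
      field_simp
    push_cast
    linarith
  · rw [Int.modEq_iff_dvd]
    exact ⟨-k, by ring⟩

/-- the degree of a monomial -/
theorem mono_deg {f : ℤ[X]} (hf : 1 ≤ f.natDegree) {u a : ℤ} {d : ℕ} (h : f + C u = C a * X ^ d) :
    d = f.natDegree ∧ a = f.leadingCoeff := by
  have h1 : (f + C u).natDegree = f.natDegree := natDegree_add_C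
  have ha : a ≠ 0 := by
    rintro rfl
    rw [h, C_0, zero_mul, natDegree_zero] at h1
    omega
  have h2 : (C a * X ^ d : ℤ[X]).natDegree = d := natDegree_C_mul_X_pow d a ha
  have hd : d = f.natDegree := by rw [← h2, ← h, h1]
  refine ⟨hd, ?_⟩
  have h3 : (f + C u).coeff d = a := by
    rw [h, coeff_C_mul_X_pow, if_pos rfl]
  rw [coeff_add, coeff_C, if_neg (by omega), add_zero, hd, coeff_natDegree] at h3
  exact h3.symm

/-- many representatives of a residue class in an interval -/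
theorem exists_reps (b Q : ℕ) (hQ : 0 < Q) (M Z : ℝ) (hZ : 0 ≤ Z) : ∃ 𝒩 : Finset ℤ,
    Z / Q - 1 ≤ (𝒩.card : ℝ) ∧ ∀ n ∈ 𝒩, M < n ∧ (n : ℝ) ≤ M + Z ∧ n ≡ b [ZMOD Q] := by
  have hQ' : (0 : ℝ) < Q := by exact_mod_cast hQ
  obtain ⟨n₀, h1, h2, h3⟩ := exists_rep b Q hQ M
  refine ⟨(range ⌊Z / Q⌋₊).image (fun j : ℕ => n₀ + j * Q), ?_, ?_⟩
  · rw [card_image_of_injective, card_range]
    · linarith [Nat.lt_floor_add_one (Z / Q)]
    · intro i j hij
      have h4 : n₀ + (i : ℤ) * Q = n₀ + (j : ℤ) * Q := hij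
      have h5 : (i : ℤ) * Q = (j : ℤ) * Q := by linarith
      have h6 : (Q : ℤ) ≠ 0 := by exact_mod_cast hQ.ne'
      have h7 := mul_right_cancel₀ h6 h5
      exact_mod_cast h7
  · intro n hn
    rw [mem_image] at hn
    obtain ⟨j, hj, rfl⟩ := hn
    rw [mem_range] at hj
    have h4 : ((j : ℝ) + 1) ≤ Z / Q := by
      have h5 : j + 1 ≤ ⌊Z / Q⌋₊ := hj
      have h6 := (Nat.le_floor_iff (by positivity)).mp h5
      push_cast at h6
      exact h6
    rw [le_div_iff₀ hQ'] at h4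
    have h5 : (0 : ℝ) ≤ (j : ℝ) * Q := by positivity
    refine ⟨?_, ?_, ?_⟩
    · push_cast
      linarith
    · push_cast
      linarith
    · have h6 : n₀ + (j : ℤ) * Q ≡ n₀ [ZMOD Q] := by
        rw [Int.modEq_iff_dvd]
        exact ⟨-j, by ring⟩
      exact h6.trans h3

/-- the integers of an interval -/
theorem intF (hM : S_MPL) (F : Finset ℤ[X]) (hF : ∀ f ∈ F, 1 ≤ f.natDegree) (ε : ℝ) (hε : 0 < ε) :
    ∃ c : ℝ, 0 < c ∧ ∃ Y₀ : ℝ, ∀ Y : ℝ, Y₀ ≤ Y → 0 ≤ RY (Real.log Y) ∧ ∀ M : ℝ,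
      Y ^ (1 - ε) ≤ (((Ioc ⌊M⌋ ⌊M + Y⌋).filter (fun n : ℤ => ∀ f ∈ F, ∀ q : ℕ, q.Prime →
        c * RY (Real.log Y) < |(q : ℝ) - ((f.eval n : ℤ) : ℝ)|)).card : ℝ) := by
  obtain ⟨c, B, y₀, hc, hB, hcov⟩ := cover hM F hF
  obtain ⟨N₀, hgr⟩ := growthF F hF
  set K : ℝ := max 100 (5 / ε) with hK
  have hK100 : 100 ≤ K := le_max_left _ _
  have hKε : 5 ≤ K * ε := by
    have h1 : 5 / ε ≤ K := le_max_right _ _
    rwa [div_le_iff₀ hε] at h1
  have hK0 : 0 < K := by linarith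
  obtain ⟨L₀, hana⟩ := ana2 K (by linarith)
  obtain ⟨y₁, hpe⟩ := pow_exp B
  set y₂ : ℝ := max (max y₀ y₁) (max 20 (|N₀| + 1)) with hy₂
  refine ⟨c / (4 * K), by positivity, max (Real.exp L₀) (Real.exp (K * y₂)), fun Y hY => ?_⟩
  have hY0 : 0 < Y := (Real.exp_pos _).trans_le ((le_max_left _ _).trans hY)
  have hL0 : L₀ ≤ Real.log Y := by
    rw [Real.le_log_iff_exp_le hY0]
    exact (le_max_left _ _).trans hY
  have hL1 : K * y₂ ≤ Real.log Y := by
    rw [Real.le_log_iff_exp_le hY0]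
    exact (le_max_right _ _).trans hY
  obtain ⟨e1, e2⟩ := hana _ hL0
  refine ⟨e2, fun M => ?_⟩
  set y : ℝ := Real.log Y / K with hy
  have hyy : y₂ ≤ y := by
    rw [hy, le_div_iff₀ hK0]
    linarith
  have hlogY : Real.log Y = K * y := by
    rw [hy]
    field_simp
  have hYexp : Y = Real.exp (K * y) := by
    rw [← hlogY, Real.exp_log hY0]
  have hy0 : y₀ ≤ y := (le_max_left _ _).trans ((le_max_left _ _).trans hyy)
  have hy1 : y₁ ≤ y := (le_max_right _ _).trans ((le_max_left _ _).trans hyy)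
  have hy10 : 20 ≤ y := (le_max_left _ _).trans ((le_max_right _ _).trans hyy)
  have hyN : |N₀| + 1 ≤ y := (le_max_right _ _).trans ((le_max_right _ _).trans hyy)
  have hKy : 100 * y ≤ K * y := mul_le_mul_of_nonneg_right hK100 (by linarith)
  obtain ⟨p1, p2⟩ := hpe y hy1
  obtain ⟨r1, r2, r3⟩ := hcov y hy0
  obtain ⟨Q, b, hQsf, -, hQ, hbQ, hQp, hhit⟩ := r3 1 (Or.inl rfl)
  -- the additional prime
  have hyB1 : 1 ≤ y ^ B := one_le_pow₀ (by linarith)
  obtain ⟨p₀, hp₀, hp₀1, hp₀2⟩ := Nat.exists_prime_lt_and_le_two_mul ⌊y ^ B⌋₊ (by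
    rw [Ne, Nat.floor_eq_zero, not_lt]
    exact hyB1)
  have hp₀lt : y ^ B < (p₀ : ℝ) := (Nat.floor_lt (by positivity)).mp hp₀1
  have hp₀le : (p₀ : ℝ) ≤ 2 * y ^ B := by
    have h1 : (p₀ : ℝ) ≤ 2 * (⌊y ^ B⌋₊ : ℝ) := by exact_mod_cast hp₀2
    have h2 : (⌊y ^ B⌋₊ : ℝ) ≤ y ^ B := Nat.floor_le (by positivity)
    linarith
  have hcop : Q.Coprime p₀ := by
    rw [Nat.coprime_comm, Nat.Prime.coprime_iff_not_dvd hp₀]
    intro hd
    have := hQp p₀ hp₀ hd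
    linarith
  obtain ⟨b', hb'1, hb'2⟩ := Nat.chineseRemainder hcop b 0
  have hQ0 : 0 < Q := Nat.pos_of_ne_zero hQsf.ne_zero
  have hQp₀ : 0 < Q * p₀ := Nat.mul_pos hQ0 hp₀.pos
  have hQp₀' : (0 : ℝ) < ((Q * p₀ : ℕ) : ℝ) := by exact_mod_cast hQp₀
  -- sizes
  have hexp1 : ((Q * p₀ : ℕ) : ℝ) ≤ 2 * Real.exp (4 * y) := by
    have h1 : (Q : ℝ) * p₀ ≤ Real.exp (3 * y) * (2 * Real.exp y) := by
      apply mul_le_mul hQ (hp₀le.trans (by linarith)) (Nat.cast_nonneg _) (Real.exp_pos _).le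
    have h2 : Real.exp (3 * y) * (2 * Real.exp y) = 2 * Real.exp (4 * y) := by
      rw [mul_left_comm, ← Real.exp_add]
      congr 2
      ring
    push_cast
    linarith
  have hexp2 : 2 * y ^ B + y ^ 2 < Y / 8 := by
    have h3 : (40 : ℝ) ≤ Real.exp (K * y - y) := by
      have := Real.add_one_le_exp (K * y - y)
      linarith
    have h4 : Y = Real.exp (K * y - y) * Real.exp y := by
      rw [hYexp, ← Real.exp_add]
      congr 1
      ring
    have h5 : 40 * Real.exp y ≤ Real.exp (K * y - y) * Real.exp y :=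
      mul_le_mul_of_nonneg_right h3 (Real.exp_pos _).le
    have h6 := Real.exp_pos y
    linarith
  have hYN : N₀ ≤ Y / 4 := by
    have h1 := Real.add_one_le_exp (K * y)
    have h2 := le_abs_self N₀
    rw [← hYexp] at h1
    linarith
  -- the integers
  obtain ⟨𝒩, hn0, hn⟩ : ∃ 𝒩 : Finset ℤ, Y / 4 / ((Q * p₀ : ℕ) : ℝ) - 1 ≤ (𝒩.card : ℝ) ∧
      ∀ n ∈ 𝒩, M < n ∧ (n : ℝ) ≤ M + Y ∧ n ≡ b' [ZMOD (Q * p₀ : ℕ)] ∧ Y / 4 ≤ |(n : ℝ)| := by
    rcases le_or_gt 0 (M + Y / 2) with h | h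
    · obtain ⟨𝒩, h1, h2⟩ := exists_reps b' (Q * p₀) hQp₀ (M + 3 * Y / 4) (Y / 4) (by linarith)
      refine ⟨𝒩, h1, fun n hn => ?_⟩
      obtain ⟨h3, h4, h5⟩ := h2 n hn
      refine ⟨by linarith, by linarith, h5, ?_⟩
      exact le_trans (by linarith) (le_abs_self _)
    · obtain ⟨𝒩, h1, h2⟩ := exists_reps b' (Q * p₀) hQp₀ M (Y / 4) (by linarith)
      refine ⟨𝒩, h1, fun n hn => ?_⟩
      obtain ⟨h3, h4, h5⟩ := h2 n hn
      refine ⟨by linarith, by linarith, h5, ?_⟩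
      exact le_trans (by linarith) (neg_le_abs _)
  have hcount : Y ^ (1 - ε) ≤ (𝒩.card : ℝ) := by
    refine le_trans ?_ hn0
    have h1 : Y ^ (1 - ε) ≤ Real.exp (K * y - 5 * y) := by
      rw [Real.rpow_def_of_pos hY0, hlogY]
      apply Real.exp_le_exp.mpr
      nlinarith
    have h2 : 2 * Real.exp (K * y - 5 * y) ≤ Y / 4 / ((Q * p₀ : ℕ) : ℝ) := by
      rw [le_div_iff₀ hQp₀']
      have h3 : 2 * Real.exp (K * y - 5 * y) * ((Q * p₀ : ℕ) : ℝ) ≤
          2 * Real.exp (K * y - 5 * y) * (2 * Real.exp (4 * y)) :=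
        mul_le_mul_of_nonneg_left hexp1 (by positivity)
      have h4 : Real.exp (K * y - 5 * y) * Real.exp (4 * y) * Real.exp y = Y := by
        rw [hYexp, ← Real.exp_add, ← Real.exp_add]
        congr 1
        ring
      have h5 : 16 ≤ Real.exp y := by
        have := Real.add_one_le_exp y
        linarith
      have h6 : Real.exp (K * y - 5 * y) * Real.exp (4 * y) * 16 ≤ Y := by
        rw [← h4]
        exact mul_le_mul_of_nonneg_left h5 (by positivity)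
      linarith
    have h3 : 1 ≤ Real.exp (K * y - 5 * y) := Real.one_le_exp (by linarith)
    linarith
  refine hcount.trans (Nat.cast_le.mpr (card_le_card ?_))
  intro n hnm
  obtain ⟨hn1, hn2, hn3, hn4⟩ := hn n hnm
  have hnb : n ≡ b [ZMOD Q] := by
    have h1 : n ≡ b' [ZMOD Q] := hn3.of_dvd (by exact_mod_cast dvd_mul_right Q p₀)
    exact h1.trans ((Int.natCast_modEq_iff).mpr hb'1)
  have hnp : (p₀ : ℤ) ∣ n := by
    have h1 : n ≡ b' [ZMOD p₀] := hn3.of_dvd (by exact_mod_cast dvd_mul_left p₀ Q)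
    have h2 : (b' : ℤ) ≡ ((0 : ℕ) : ℤ) [ZMOD p₀] := (Int.natCast_modEq_iff).mpr hb'2
    have h3 := h1.trans h2
    rw [Nat.cast_zero] at h3
    exact Int.modEq_zero_iff_dvd.mp h3
  rw [mem_filter, mem_Ioc]
  refine ⟨⟨Int.floor_lt.mpr hn1, Int.le_floor.mpr hn2⟩, fun f hf q hq => ?_⟩
  by_contra hcon
  push Not at hcon
  set u : ℤ := (q : ℤ) - f.eval n with hu
  have hucast : (u : ℝ) = (q : ℝ) - ((f.eval n : ℤ) : ℝ) := by rw [hu]; push_cast; rfl
  have huT : |(u : ℝ)| ≤ c * RY y := by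
    rw [hucast]
    refine hcon.trans ?_
    have h1 : c * (RY (Real.log Y) / (4 * K)) ≤ c * RY y := mul_le_mul_of_nonneg_left e1 hc.le
    have h2 : c / (4 * K) * RY (Real.log Y) = c * (RY (Real.log Y) / (4 * K)) := by
      field_simp
    linarith
  have hqu : f.eval n + u = (q : ℤ) := by rw [hu]; ring
  have hfn : Y / 8 ≤ |((f.eval n : ℤ) : ℝ)| := by
    have h1 := hgr f hf n (hYN.trans hn4)
    linarith
  have hqbig : Y / 8 - y ^ 2 ≤ (q : ℝ) := by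
    have h1 : |((f.eval n : ℤ) : ℝ)| ≤ |(q : ℝ)| + |(u : ℝ)| := by
      have h2 : ((f.eval n : ℤ) : ℝ) = (q : ℝ) - (u : ℝ) := by rw [hucast]; ring
      rw [h2]
      exact abs_sub _ _
    have h2 : |(q : ℝ)| = q := abs_of_nonneg (Nat.cast_nonneg _)
    rw [h2] at h1
    linarith
  rcases hhit n hnb f hf u huT with ⟨a, d, had⟩ | ⟨p, hp, hpB, hpd⟩
  · obtain ⟨hd, -⟩ := mono_deg (hF f hf) had
    have h1 : f.eval n + u = a * n ^ d := by
      have h2 : (f + C u).eval n = (C a * X ^ d : ℤ[X]).eval n := by rw [had]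
      simpa using h2
    have h2 : (p₀ : ℤ) ∣ (q : ℤ) := by
      rw [← hqu, h1]
      apply Dvd.dvd.mul_left
      have h3 := hF f hf
      exact dvd_pow hnp (by omega)
    have h3 : p₀ ∣ q := by exact_mod_cast h2
    have h4 := (Nat.prime_dvd_prime_iff_eq hp₀ hq).mp h3
    rw [h4] at hp₀le
    linarith
  · rw [hqu] at hpd
    have h3 : p ∣ q := by exact_mod_cast hpd
    have h4 := (Nat.prime_dvd_prime_iff_eq hp hq).mp h3
    rw [h4] at hpB
    linarith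

end Pool.Agent.Y670.RP
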