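import Pool.Agent.Y670.RP.Int

set_option autoImplicit false

/-! # Polynomials with rational coefficients in positive degree (helper670) -/

namespace Pool.Agent.Y670.RP

open Polynomial Finset Filter

open scoped Classical

/-- Rankin's function tends to infinity -/
theorem RY_large (M : ℝ) : ∃ L₀ : ℝ, ∀ L : ℝ, L₀ ≤ L → M ≤ RY L := by
  obtain ⟨y₀, h⟩ := ev_logs (max M 1)
  refine ⟨y₀, fun L hL => ?_⟩
  obtain ⟨h1, h2, h3, h4, h5⟩ := h L hL
  have hM : M ≤ max M 1 := le_max_left _ _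
  have hM1 : 1 ≤ max M 1 := le_max_right _ _
  set l1 := Real.log L with hl1
  set l2 := Real.log l1 with hl2
  set l3 := Real.log l2 with hl3
  have hl2p : 0 < l2 ^ 2 := by
    have : 0 < l2 := by linarith
    positivity
  have e : RY L = L * l1 * l3 / l2 ^ 2 := rfl
  rw [e, le_div_iff₀ hl2p]
  have q1 : M * l2 ^ 2 ≤ l1 := by
    refine le_trans ?_ h5
    exact mul_le_mul_of_nonneg_right hM hl2p.le
  have q2 : l1 ≤ L * l1 := le_mul_of_one_le_left (by linarith) (by linarith)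
  have q3 : L * l1 ≤ L * l1 * l3 := by
    apply le_mul_of_one_le_right
    · have : 0 ≤ L := by linarith
      have : 0 ≤ l1 := by linarith
      positivity
    · linarith
  linarith

/-- clearing the denominators of one polynomial -/
theorem clear_one (f : ℝ[X]) (hf : f.natDegree ≠ 0)
    (hrat : ∀ i : ℕ, 1 ≤ i → ∃ r : ℚ, (r : ℝ) = f.coeff i) :
    ∃ D₀ : ℕ, 1 ≤ D₀ ∧ ∀ D : ℕ, 1 ≤ D → D₀ ∣ D → ∃ G : ℤ[X], 1 ≤ G.natDegree ∧
      ∀ m : ℤ, |f.eval ((D : ℝ) * m) - ((G.eval m : ℤ) : ℝ)| ≤ 1 := by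
  have hrat' : ∀ i : ℕ, ∃ r : ℚ, 1 ≤ i → (r : ℝ) = f.coeff i := by
    intro i
    by_cases hi : 1 ≤ i
    · obtain ⟨r, hr⟩ := hrat i hi
      exact ⟨r, fun _ => hr⟩
    · exact ⟨0, fun h => absurd h hi⟩
  choose r hr using hrat'
  refine ⟨∏ i ∈ range (f.natDegree + 1), (r i).den, ?_, ?_⟩
  · exact Nat.one_le_iff_ne_zero.mpr (Finset.prod_ne_zero_iff.mpr fun i _ => (r i).den_nz)
  intro D hD hdvd
  have hz : ∀ i : ℕ, ∃ z : ℤ, (1 ≤ i → i ≤ f.natDegree → (z : ℝ) = (D : ℝ) ^ i * f.coeff i) ∧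
      (i = 0 → z = ⌊f.coeff 0⌋) := by
    intro i
    by_cases hi : 1 ≤ i ∧ i ≤ f.natDegree
    · have h1 : (r i).den ∣ D :=
        (Finset.dvd_prod_of_mem (fun i => (r i).den) (mem_range.mpr (by omega))).trans hdvd
      obtain ⟨k, hk⟩ := h1
      refine ⟨(k : ℤ) * (r i).num * (D : ℤ) ^ (i - 1), fun _ _ => ?_, fun h => by omega⟩
      rw [← hr i hi.1]
      have h2 : (r i : ℝ) = (r i).num / (r i).den := by
        exact_mod_cast (Rat.num_div_den (r i)).symm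
      have h3 : ((r i).den : ℝ) ≠ 0 := by exact_mod_cast (r i).den_nz
      have h4 : (D : ℝ) = (r i).den * k := by exact_mod_cast hk
      have h5 : (D : ℝ) ^ i = (D : ℝ) ^ (i - 1) * D := by
        rw [← pow_succ]
        congr 1
        omega
      rw [h2, h5]
      push_cast
      have h6 : (D : ℝ) ^ (i - 1) * (D : ℝ) * (((r i).num : ℝ) / ((r i).den : ℝ)) =
          (D : ℝ) ^ (i - 1) * (((r i).den : ℝ) * k) * (((r i).num : ℝ) / ((r i).den : ℝ)) := by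
        rw [← h4]
      rw [h6]
      field_simp
    · refine ⟨⌊f.coeff 0⌋, fun h1 h2 => absurd ⟨h1, h2⟩ hi, fun _ => rfl⟩
  choose z hz1 hz0 using hz
  set d := f.natDegree with hd
  set G : ℤ[X] := ∑ i ∈ range (d + 1), C (z i) * X ^ i with hG
  have hGc : G.coeff d = z d := by
    rw [hG, finsetSum_coeff]
    rw [Finset.sum_eq_single d]
    · rw [coeff_C_mul_X_pow, if_pos rfl]
    · intro b _ hb
      rw [coeff_C_mul_X_pow, if_neg (Ne.symm hb)]
    · intro h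
      exact absurd (mem_range.mpr (Nat.lt_succ_self d)) h
  have hD0 : (D : ℝ) ≠ 0 := by
    have : (1 : ℝ) ≤ D := by exact_mod_cast hD
    linarith
  have hzd : z d ≠ 0 := by
    intro h0
    have h1 := hz1 d (by omega) le_rfl
    rw [h0, Int.cast_zero] at h1
    have h2 : f.coeff d ≠ 0 := by
      rw [hd, coeff_natDegree, Ne, leadingCoeff_eq_zero]
      intro h3
      apply hf
      rw [hd, h3, natDegree_zero]
    exact (mul_ne_zero (pow_ne_zero _ hD0) h2) h1.symm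
  refine ⟨G, ?_, fun m => ?_⟩
  · have h1 : d ≤ G.natDegree := le_natDegree_of_ne_zero (by rw [hGc]; exact hzd)
    omega
  · have e1 : f.eval ((D : ℝ) * m) = ∑ i ∈ range (d + 1), f.coeff i * ((D : ℝ) * m) ^ i := by
      rw [eval_eq_sum_range]
    have e2 : ((G.eval m : ℤ) : ℝ) = ∑ i ∈ range (d + 1), (z i : ℝ) * (m : ℝ) ^ i := by
      rw [hG, eval_finsetSum]
      push_cast
      refine Finset.sum_congr rfl fun i _ => ?_
      simp
    rw [e1, e2, ← Finset.sum_sub_distrib, Finset.sum_range_succ']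
    have h0 : ∀ i ∈ range d, f.coeff (i + 1) * ((D : ℝ) * m) ^ (i + 1) -
        (z (i + 1) : ℝ) * (m : ℝ) ^ (i + 1) = 0 := by
      intro i hi
      rw [mem_range] at hi
      rw [hz1 (i + 1) (by omega) (by omega), mul_pow]
      ring
    rw [Finset.sum_eq_zero h0, zero_add, pow_zero, pow_zero, mul_one, mul_one, hz0 0 rfl]
    rw [abs_of_nonneg (by linarith [Int.floor_le (f.coeff 0)])]
    linarith [Int.lt_floor_add_one (f.coeff 0)]

/-- clearing the denominators of a finite set of polynomials -/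
theorem clear_all (F : Finset ℝ[X]) (hF : ∀ f ∈ F, f.natDegree ≠ 0 ∧
    ∀ i : ℕ, 1 ≤ i → ∃ r : ℚ, (r : ℝ) = f.coeff i) :
    ∃ D : ℕ, 1 ≤ D ∧ ∃ G : ℝ[X] → ℤ[X], ∀ f ∈ F, 1 ≤ (G f).natDegree ∧
      ∀ m : ℤ, |f.eval ((D : ℝ) * m) - (((G f).eval m : ℤ) : ℝ)| ≤ 1 := by
  have h1 : ∀ f : ℝ[X], ∃ D₀ : ℕ, 1 ≤ D₀ ∧ (f ∈ F → ∀ D : ℕ, 1 ≤ D → D₀ ∣ D → ∃ G : ℤ[X],
      1 ≤ G.natDegree ∧ ∀ m : ℤ, |f.eval ((D : ℝ) * m) - ((G.eval m : ℤ) : ℝ)| ≤ 1) := by
    intro f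
    by_cases hf : f ∈ F
    · obtain ⟨D₀, h2, h3⟩ := clear_one f (hF f hf).1 (hF f hf).2
      exact ⟨D₀, h2, fun _ => h3⟩
    · exact ⟨1, le_rfl, fun h => absurd h hf⟩
  choose D₀ h2 h3 using h1
  set D := ∏ f ∈ F, D₀ f with hD
  have hD1 : 1 ≤ D := Nat.one_le_iff_ne_zero.mpr
    (Finset.prod_ne_zero_iff.mpr fun f _ => by have := h2 f; omega)
  refine ⟨D, hD1, ?_⟩
  have h4 : ∀ f : ℝ[X], ∃ G : ℤ[X], f ∈ F → 1 ≤ G.natDegree ∧
      ∀ m : ℤ, |f.eval ((D : ℝ) * m) - ((G.eval m : ℤ) : ℝ)| ≤ 1 := by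
    intro f
    by_cases hf : f ∈ F
    · obtain ⟨G, hG⟩ := h3 f hf D hD1 (Finset.dvd_prod_of_mem D₀ hf)
      exact ⟨G, fun _ => hG⟩
    · exact ⟨0, fun h => absurd h hf⟩
  choose G hG using h4
  exact ⟨G, fun f hf => hG f hf⟩

theorem ratF (hM : S_MPL) (F : Finset ℝ[X]) (hF : ∀ f ∈ F, f.natDegree ≠ 0 ∧
    ∀ i : ℕ, 1 ≤ i → ∃ r : ℚ, (r : ℝ) = f.coeff i) (ε : ℝ) (hε : 0 < ε) :
    ∃ c : ℝ, 0 < c ∧ ∃ Y₀ : ℝ, ∀ Y : ℝ, Y₀ ≤ Y → ∀ M : ℝ,
      Y ^ (1 - ε) ≤ (((Ioc ⌊M⌋ ⌊M + Y⌋).filter (fun n : ℤ => ∀ f ∈ F, ∀ q : ℕ, q.Prime →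
        c * RY (Real.log Y) < |(q : ℝ) - f.eval (n : ℝ)|)).card : ℝ) := by
  obtain ⟨D, hD, G, hG⟩ := clear_all F hF
  obtain ⟨c, hc, Y₁, hint⟩ := intF hM (F.image G) (by
    intro g hg
    rw [mem_image] at hg
    obtain ⟨f, hf, rfl⟩ := hg
    exact (hG f hf).1) (ε / 2) (half_pos hε)
  obtain ⟨L₀, hana⟩ := ana2' 2 (by norm_num)
  obtain ⟨L₁, hlarge⟩ := RY_large (16 / c)
  have hD1 : (1 : ℝ) ≤ D := by exact_mod_cast hD
  have hD0 : (0 : ℝ) < D := by linarith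
  have hlogD : 0 ≤ Real.log D := Real.log_nonneg hD1
  set L₂ : ℝ := max (max L₀ L₁) (max (max (2 * Real.log D) (2 * Real.log D / ε)) (2 * |Y₁|)) with hL₂
  refine ⟨c / 16, by positivity, Real.exp L₂, fun Y hY M => ?_⟩
  have hY0 : 0 < Y := (Real.exp_pos _).trans_le hY
  set L := Real.log Y with hL
  have hLL : L₂ ≤ L := by
    rw [hL, Real.le_log_iff_exp_le hY0]
    exact hY
  have g1 : L₀ ≤ L := (le_max_left _ _).trans ((le_max_left _ _).trans hLL)
  have g2 : L₁ ≤ L := (le_max_right _ _).trans ((le_max_left _ _).trans hLL)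
  have g3 := (le_max_right _ _).trans hLL
  have g4 : 2 * Real.log D ≤ L := (le_max_left _ _).trans ((le_max_left _ _).trans g3)
  have g5 : 2 * Real.log D / ε ≤ L := (le_max_right _ _).trans ((le_max_left _ _).trans g3)
  have g6 : 2 * |Y₁| ≤ L := (le_max_right _ _).trans g3
  obtain ⟨e2, e1⟩ := hana L g1
  have e3 := hlarge L g2
  have hY'0 : 0 < Y / D := by positivity
  have hlogY' : Real.log (Y / D) = L - Real.log D := Real.log_div hY0.ne' hD0.ne'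
  have hY'exp : Y / D = Real.exp (L - Real.log D) := by
    rw [← hlogY', Real.exp_log hY'0]
  have hY'1 : Y₁ ≤ Y / D := by
    have h1 := Real.add_one_le_exp (L - Real.log D)
    rw [← hY'exp] at h1
    have h2 := le_abs_self Y₁
    linarith
  obtain ⟨-, hn⟩ := hint (Y / D) hY'1
  have hn := hn (M / D)
  rw [hlogY'] at hn
  have e4 := e1 (L - Real.log D) (by linarith) (by linarith)
  have hpow : Y ^ (1 - ε) ≤ (Y / D) ^ (1 - ε / 2) := by
    rw [Real.rpow_def_of_pos hY0, Real.rpow_def_of_pos hY'0, hlogY']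
    apply Real.exp_le_exp.mpr
    rw [div_le_iff₀ hε] at g5
    have h1 : Real.log D * (1 - ε / 2) ≤ Real.log D * 1 :=
      mul_le_mul_of_nonneg_left (by linarith) hlogD
    nlinarith
  refine (hpow.trans hn).trans (Nat.cast_le.mpr ?_)
  apply Finset.card_le_card_of_injOn (fun m : ℤ => (D : ℤ) * m)
  · intro m hm
    rw [mem_coe, mem_filter, mem_Ioc] at hm
    obtain ⟨⟨hm1, hm2⟩, hm3⟩ := hm
    rw [Int.floor_lt, div_lt_iff₀ hD0] at hm1
    rw [Int.le_floor, ← add_div, le_div_iff₀ hD0] at hm2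
    rw [mem_coe, mem_filter, mem_Ioc]
    refine ⟨⟨?_, ?_⟩, fun f hf q hq => ?_⟩
    · rw [Int.floor_lt]
      push_cast
      linarith
    · rw [Int.le_floor]
      push_cast
      linarith
    · have h1 := hm3 (G f) (mem_image_of_mem G hf) q hq
      have h2 := (hG f hf).2 m
      have h3 : |(q : ℝ) - (((G f).eval m : ℤ) : ℝ)| ≤ |(q : ℝ) - f.eval ((D : ℝ) * m)| +
          |f.eval ((D : ℝ) * m) - (((G f).eval m : ℤ) : ℝ)| := abs_sub_le _ _ _
      have h4 : c * (RY L / (4 * 2)) ≤ c * RY (L - Real.log D) :=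
        mul_le_mul_of_nonneg_left e4 hc.le
      have h5 : 16 ≤ c * RY L := by
        rw [div_le_iff₀ hc] at e3
        linarith
      push_cast
      linarith
  · intro m _ m' _ h
    have h1 : (D : ℤ) * m = (D : ℤ) * m' := h
    have h2 : (D : ℤ) ≠ 0 := by
      have : D ≠ 0 := by omega
      exact_mod_cast this
    exact mul_left_cancel₀ h2 h1

end Pool.Agent.Y670.RP
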