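import Mathlib

set_option autoImplicit false

/-!
# Project RP (helper670): prime gaps around the values of arbitrary polynomials

Statements of the two tasks.
-/

namespace Pool.Agent.Y670.RP

open Polynomial Finset

open scoped Classical

/-- MPL: a polynomial of bounded degree and bounded leading coefficient with coefficients at most
`y ^ 3` has roots modulo at least `y` primes of the interval from `y` to a fixed power of `y` -/
def S_MPL : Prop := ∀ D A : ℕ, 1 ≤ D → ∃ (B : ℕ) (y₀ : ℝ), ∀ y : ℝ, y₀ ≤ y → ∀ h : ℤ[X],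
  1 ≤ h.natDegree → h.natDegree ≤ D → |h.leadingCoeff| ≤ (A : ℤ) →
  (∀ i : ℕ, |(h.coeff i : ℝ)| ≤ y ^ 3) →
  y ≤ (((Icc 1 ⌊y ^ B⌋₊).filter (fun p : ℕ => p.Prime ∧ y < (p : ℝ) ∧
    ∃ t : ℤ, (p : ℤ) ∣ h.eval t)).card : ℝ)

/-- LINX: primes in all reduced classes to squarefree moduli prime to one exceptional odd prime -/
def S_LINX : Prop := ∃ (K : ℕ) (c : ℝ), 1 ≤ K ∧ 0 < c ∧ ∃ z₀ : ℕ, ∀ z : ℕ, z₀ ≤ z →
  ∃ r : ℕ, (r = 1 ∨ (r.Prime ∧ 2 < r)) ∧ ∀ q b : ℕ, Squarefree q → q ^ 16 ≤ z →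
    (r ≠ 1 → ¬ r ∣ q) → b.Coprime q →
      c / (q.totient : ℝ) ≤
        ∑ p ∈ (Ioc z (z ^ K)).filter (fun p => p.Prime ∧ p ≡ b [MOD q]), (1 : ℝ) / (p : ℝ)

end Pool.Agent.Y670.RP
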